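import Pool.Agent.W304.HL.Count

/-!
Marked chain-order polytopes: transversality.
-/

set_option linter.unusedSectionVars false

namespace Pool.Agent.W304.HL

open Set Filter Topology

section tele

variable {α : Type*} [PartialOrder α]

theorem exists_greatest {s : Finset α} (hs : IsChain (· ≤ ·) (s : Set α)) (hne : s.Nonempty) :
    ∃ m ∈ s, ∀ c ∈ s, c ≤ m := by
  obtain ⟨m, hm⟩ := s.exists_maximal hne
  refine ⟨m, hm.1, fun c hc => ?_⟩
  by_cases h : c = m
  · exact h.le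
  · rcases hs hc hm.1 h with h1 | h1
    · exact h1
    · exact hm.2 hc h1

open Classical in
theorem telescope (G : Finset α → ℝ) : ∀ s : Finset α, IsChain (· ≤ ·) (s : Set α) →
    ∑ c ∈ s, (G (s.filter (· ≤ c)) - G (s.filter (· < c))) = G s - G ∅ := by
  intro s
  induction s using Finset.strongInduction with
  | H s ih =>
    intro hs
    rcases s.eq_empty_or_nonempty with rfl | hne
    · simp
    obtain ⟨m, hm, hmax⟩ := exists_greatest hs hne
    have h1 : s.filter (· ≤ m) = s := Finset.filter_true_of_mem hmax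
    have h2 : s.filter (· < m) = s.erase m := by
      ext c
      rw [Finset.mem_filter, Finset.mem_erase]
      constructor
      · rintro ⟨h, h'⟩
        exact ⟨h'.ne, h⟩
      · rintro ⟨h, h'⟩
        exact ⟨h', lt_of_le_of_ne (hmax c h') h⟩
    rw [← Finset.add_sum_erase s _ hm, h1, h2]
    have h3 : ∑ c ∈ s.erase m, (G (s.filter (· ≤ c)) - G (s.filter (· < c))) =
        ∑ c ∈ s.erase m, (G ((s.erase m).filter (· ≤ c)) - G ((s.erase m).filter (· < c))) := by
      apply Finset.sum_congr rfl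
      intro c hc
      rw [Finset.mem_erase] at hc
      have hcm : c < m := lt_of_le_of_ne (hmax c hc.2) hc.1
      congr 2
      · ext d
        simp only [Finset.mem_filter, Finset.mem_erase]
        constructor
        · rintro ⟨h4, h5⟩
          exact ⟨⟨(lt_of_le_of_lt h5 hcm).ne, h4⟩, h5⟩
        · rintro ⟨⟨h4, h5⟩, h6⟩
          exact ⟨h5, h6⟩
      · ext d
        simp only [Finset.mem_filter, Finset.mem_erase]
        constructor
        · rintro ⟨h4, h5⟩
          exact ⟨⟨(lt_trans h5 hcm).ne, h4⟩, h5⟩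
        · rintro ⟨⟨h4, h5⟩, h6⟩
          exact ⟨h5, h6⟩
    rw [h3, ih _ (Finset.erase_ssubset hm)
      (hs.mono (by exact_mod_cast Finset.erase_subset m s))]
    ring

open Classical in
theorem sum_split {s : Finset α} (hs : IsChain (· ≤ ·) (s : Set α)) {c : α} (hc : c ∈ s)
    (f : α → ℝ) : ∑ d ∈ s, f d = ∑ d ∈ s.filter (· ≤ c), f d + ∑ d ∈ s.filter (c < ·), f d := by
  rw [← Finset.sum_filter_add_sum_filter_not s (· ≤ c)]
  congr 1
  apply Finset.sum_congr _ fun _ _ => rfl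
  ext d
  rw [Finset.mem_filter, Finset.mem_filter]
  constructor
  · rintro ⟨h1, h2⟩
    refine ⟨h1, ?_⟩
    have hne : d ≠ c := fun h => h2 h.le
    rcases hs h1 hc hne with h3 | h3
    · exact absurd h3 h2
    · exact lt_of_le_of_ne h3 hne.symm
  · rintro ⟨h1, h2⟩
    exact ⟨h1, not_le_of_gt h2⟩

open Classical in
theorem sum_le_eq {s : Finset α} {c : α} (hc : c ∈ s)
    (f : α → ℝ) : ∑ d ∈ s.filter (· ≤ c), f d = ∑ d ∈ s.filter (· < c), f d + f c := by
  have h : s.filter (· ≤ c) = insert c (s.filter (· < c)) := by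
    ext d
    rw [Finset.mem_insert, Finset.mem_filter, Finset.mem_filter, le_iff_eq_or_lt]
    constructor
    · rintro ⟨h1, rfl | h2⟩
      · exact Or.inl rfl
      · exact Or.inr ⟨h1, h2⟩
    · rintro (rfl | ⟨h1, h2⟩)
      · exact ⟨hc, Or.inl rfl⟩
      · exact ⟨h1, Or.inr h2⟩
  rw [h, Finset.sum_insert (by simp), add_comm]

end tele

section co

variable {P : Type*} [PartialOrder P] {A : Set P}

/-- The value of a node: the marking on `A`, the coordinate off `A`. -/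
noncomputable def mu (lam : A → ℝ) (x : {p : P // p ∉ A} → ℝ) (r : P) : ℝ :=
  open Classical in if h : r ∈ A then lam ⟨r, h⟩ else x ⟨r, h⟩

/-- the linear part of `mu` -/
noncomputable def nuL (A : Set P) (r : P) : ({p : P // p ∉ A} → ℝ) →ₗ[ℝ] ℝ :=
  open Classical in if h : r ∈ A then 0 else LinearMap.proj ⟨r, h⟩

/-- the constant part of `mu` -/
noncomputable def cst (lam : A → ℝ) (r : P) : ℝ :=
  open Classical in if h : r ∈ A then lam ⟨r, h⟩ else 0

theorem mu_eq (lam : A → ℝ) (x : {p : P // p ∉ A} → ℝ) (r : P) :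
    mu lam x r = nuL A r x + cst lam r := by
  unfold mu nuL cst
  by_cases h : r ∈ A
  · simp [h]
  · simp [h]

theorem mu_mem {lam : A → ℝ} {x : {p : P // p ∉ A} → ℝ} {r : P} (h : r ∈ A) :
    mu lam x r = lam ⟨r, h⟩ := by simp [mu, h]

theorem mu_coe {lam : A → ℝ} {x : {p : P // p ∉ A} → ℝ} (r : {p : P // p ∉ A}) :
    mu lam x r = x r := by simp [mu, r.2]

theorem nuL_mem {x : {p : P // p ∉ A} → ℝ} {r : P} (h : r ∈ A) : nuL A r x = 0 := by
  simp [nuL, h]

theorem nuL_coe {x : {p : P // p ∉ A} → ℝ} (r : {p : P // p ∉ A}) : nuL A r x = x r := by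
  simp [nuL, r.2]

/-- marked elements and elements of `N` -/
def nodes (N : Set {p : P // p ∉ A}) : Set P := A ∪ Subtype.val '' N

/-- `b`, the chain `s` in `S`, and `a` form an inequality -/
structure Valid (N S : Set {p : P // p ∉ A}) (b : P) (s : Finset {p : P // p ∉ A}) (a : P) :
    Prop where
  hb : b ∈ nodes N
  ha : a ∈ nodes N
  hs : (s : Set {p : P // p ∉ A}) ⊆ S
  chain : IsChain (· ≤ ·) (s : Set {p : P // p ∉ A})
  lt : b < a
  bet : ∀ c ∈ s, b < (c : P) ∧ (c : P) < a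
  ne : s = ∅ → ¬ (b ∈ A ∧ a ∈ A)

open Classical in
theorem Valid.swap {N S : Set {p : P // p ∉ A}} {b b' a a' : P} {s s' : Finset {p : P // p ∉ A}}
    (h : Valid N S b s a) (h' : Valid N S b' s' a') {c : {p : P // p ∉ A}} (hc : c ∈ s)
    (hc' : c ∈ s') : Valid N S b (s.filter (· ≤ c) ∪ s'.filter (c < ·)) a' where
  hb := h.hb
  ha := h'.ha
  hs := by
    intro d hd
    rw [Finset.mem_coe, Finset.mem_union, Finset.mem_filter, Finset.mem_filter] at hd
    rcases hd with hd | hd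
    · exact h.hs hd.1
    · exact h'.hs hd.1
  chain := by
    intro d hd d' hd' hne
    rw [Finset.mem_coe, Finset.mem_union, Finset.mem_filter, Finset.mem_filter] at hd hd'
    rcases hd with hd | hd <;> rcases hd' with hd' | hd'
    · exact h.chain hd.1 hd'.1 hne
    · exact Or.inl (hd.2.trans hd'.2.le)
    · exact Or.inr (hd'.2.trans hd.2.le)
    · exact h'.chain hd.1 hd'.1 hne
  lt := (h.bet c hc).1.trans (h'.bet c hc').2
  bet := by
    intro d hd
    rw [Finset.mem_union, Finset.mem_filter, Finset.mem_filter] at hd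
    rcases hd with hd | hd
    · exact ⟨(h.bet d hd.1).1, lt_of_le_of_lt (Subtype.coe_le_coe.2 hd.2) (h'.bet c hc').2⟩
    · exact ⟨(h.bet c hc).1.trans (Subtype.coe_lt_coe.2 hd.2), (h'.bet d hd.1).2⟩
  ne := by
    intro he
    exfalso
    have : c ∈ s.filter (· ≤ c) ∪ s'.filter (c < ·) := by
      rw [Finset.mem_union, Finset.mem_filter]
      exact Or.inl ⟨hc, le_rfl⟩
    rw [he] at this
    simp at this

open Classical in
theorem sum_swap {s s' : Finset {p : P // p ∉ A}} (c : {p : P // p ∉ A})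
    (f : {p : P // p ∉ A} → ℝ) : ∑ d ∈ s.filter (· ≤ c) ∪ s'.filter (c < ·), f d =
      ∑ d ∈ s.filter (· ≤ c), f d + ∑ d ∈ s'.filter (c < ·), f d := by
  apply Finset.sum_union
  rw [Finset.disjoint_left]
  intro d hd hd'
  rw [Finset.mem_filter] at hd hd'
  exact absurd hd.2 (not_le_of_gt hd'.2)

open Classical in
theorem exch {N S : Set {p : P // p ∉ A}} {M m : P → ℝ} {W v : {p : P // p ∉ A} → ℝ}
    (hw : ∀ b s a, Valid N S b s a → M b + ∑ c ∈ s, W c ≤ M a)
    (hv : ∀ b s a, Valid N S b s a → M b + ∑ c ∈ s, W c = M a → m b + ∑ c ∈ s, v c = m a)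
    {b b' a a' : P} {s s' : Finset {p : P // p ∉ A}}
    (h : Valid N S b s a) (h' : Valid N S b' s' a') (t : M b + ∑ c ∈ s, W c = M a)
    (t' : M b' + ∑ c ∈ s', W c = M a') {c : {p : P // p ∉ A}} (hc : c ∈ s) (hc' : c ∈ s') :
    M b + ∑ d ∈ s.filter (· ≤ c), W d = M b' + ∑ d ∈ s'.filter (· ≤ c), W d ∧
    m b + ∑ d ∈ s.filter (· ≤ c), v d = m b' + ∑ d ∈ s'.filter (· ≤ c), v d := by
  have h1 := h.swap h' hc hc'
  have h2 := h'.swap h hc' hc
  have e1 := hw _ _ _ h1
  have e2 := hw _ _ _ h2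
  rw [sum_swap] at e1 e2
  have t1 := t
  have t1' := t'
  rw [sum_split h.chain hc] at t1
  rw [sum_split h'.chain hc'] at t1'
  have e3 : M b + (∑ d ∈ s.filter (· ≤ c), W d + ∑ d ∈ s'.filter (c < ·), W d) = M a' := by
    linarith
  refine ⟨by linarith, ?_⟩
  have f1 := hv _ _ _ h1 (by rw [sum_swap]; exact e3)
  have f2 := hv _ _ _ h' t'
  rw [sum_swap] at f1
  rw [sum_split h'.chain hc'] at f2
  linarith

/-- the part of the direction `v` moving the nodes of value `r` -/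
noncomputable def part (N S : Set {p : P // p ∉ A}) (M m : P → ℝ) (W v : {p : P // p ∉ A} → ℝ)
    (r : ℝ) (c : {p : P // p ∉ A}) : ℝ :=
  open Classical in
  if c ∈ N then (if M c = r then m c else 0)
  else if h : ∃ t : P × Finset {p : P // p ∉ A} × P,
      Valid N S t.1 t.2.1 t.2.2 ∧ M t.1 + ∑ d ∈ t.2.1, W d = M t.2.2 ∧ c ∈ t.2.1 then
    (if M h.choose.1 + ∑ d ∈ h.choose.2.1.filter (· ≤ c), W d = r then
      m h.choose.1 + ∑ d ∈ h.choose.2.1.filter (· ≤ c), v d else 0) -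
    (if M h.choose.1 + ∑ d ∈ h.choose.2.1.filter (· < c), W d = r then
      m h.choose.1 + ∑ d ∈ h.choose.2.1.filter (· < c), v d else 0)
  else 0

open Classical in
theorem part_of_tight {N S : Set {p : P // p ∉ A}} {M m : P → ℝ} {W v : {p : P // p ∉ A} → ℝ}
    {r : ℝ} (hNS : Disjoint N S)
    (hw : ∀ b s a, Valid N S b s a → M b + ∑ c ∈ s, W c ≤ M a)
    (hv : ∀ b s a, Valid N S b s a → M b + ∑ c ∈ s, W c = M a → m b + ∑ c ∈ s, v c = m a)
    {b a : P} {s : Finset {p : P // p ∉ A}} (h : Valid N S b s a)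
    (t : M b + ∑ c ∈ s, W c = M a) {c : {p : P // p ∉ A}} (hc : c ∈ s) :
    part N S M m W v r c =
      (if M b + ∑ d ∈ s.filter (· ≤ c), W d = r then
        m b + ∑ d ∈ s.filter (· ≤ c), v d else 0) -
      (if M b + ∑ d ∈ s.filter (· < c), W d = r then
        m b + ∑ d ∈ s.filter (· < c), v d else 0) := by
  have hcN : c ∉ N := fun h' => Set.disjoint_left.1 hNS h' (h.hs hc)
  have hex : ∃ t : P × Finset {p : P // p ∉ A} × P,
      Valid N S t.1 t.2.1 t.2.2 ∧ M t.1 + ∑ d ∈ t.2.1, W d = M t.2.2 ∧ c ∈ t.2.1 :=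
    ⟨(b, s, a), h, t, hc⟩
  unfold part
  rw [if_neg hcN, dif_pos hex]
  obtain ⟨g1, g2, g3⟩ := hex.choose_spec
  obtain ⟨e1, e2⟩ := exch hw hv h g1 t g2 hc g3
  have e3 := e1
  have e4 := e2
  rw [sum_le_eq hc, sum_le_eq g3] at e3 e4
  have e5 : M b + ∑ d ∈ s.filter (· < c), W d =
      M hex.choose.1 + ∑ d ∈ hex.choose.2.1.filter (· < c), W d := by linarith
  have e6 : m b + ∑ d ∈ s.filter (· < c), v d =
      m hex.choose.1 + ∑ d ∈ hex.choose.2.1.filter (· < c), v d := by linarith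
  rw [← e1, ← e2, ← e5, ← e6]

/-- indices of the inequalities not involving `p` -/
abbrev Dl (N S : Set {p : P // p ∉ A}) : Type _ :=
  {t : P × Finset {p : P // p ∉ A} × P // Valid N S t.1 t.2.1 t.2.2} ⊕ {c // c ∈ S}

/-- indices of the lower bounds of the coordinate `p` -/
abbrev Ka (N S : Set {p : P // p ∉ A}) (p : {p : P // p ∉ A}) : Type _ :=
  {k : P × Finset {p : P // p ∉ A} // k.1 ∈ nodes N ∧ (k.2 : Set {p : P // p ∉ A}) ⊆ S ∧
    IsChain (· ≤ ·) (k.2 : Set {p : P // p ∉ A}) ∧ k.1 < p ∧ ∀ c ∈ k.2, k.1 < (c : P) ∧ c < p}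

/-- indices of the upper bounds of the coordinate `p` -/
abbrev Up (N : Set {p : P // p ∉ A}) (p : {p : P // p ∉ A}) : Type _ :=
  {a : P // a ∈ nodes N ∧ (p : P) < a}

noncomputable def cDf (N S : Set {p : P // p ∉ A}) : Dl N S → ({p : P // p ∉ A} → ℝ) →ₗ[ℝ] ℝ :=
  Sum.elim (fun t => nuL A t.1.1 + ∑ c ∈ t.1.2.1, LinearMap.proj c - nuL A t.1.2.2)
    (fun c => - LinearMap.proj c.1)

noncomputable def dDf (lam : A → ℝ) (N S : Set {p : P // p ∉ A}) : Dl N S → ℝ :=
  Sum.elim (fun t => cst lam t.1.2.2 - cst lam t.1.1) (fun _ => 0)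

noncomputable def af (N S : Set {p : P // p ∉ A}) (p : {p : P // p ∉ A}) :
    Ka N S p → ({p : P // p ∉ A} → ℝ) →ₗ[ℝ] ℝ :=
  fun k => nuL A k.1.1 + ∑ c ∈ k.1.2, LinearMap.proj c

noncomputable def acf (lam : A → ℝ) (N S : Set {p : P // p ∉ A}) (p : {p : P // p ∉ A}) :
    Ka N S p → ℝ := fun k => cst lam k.1.1

noncomputable def bf (N : Set {p : P // p ∉ A}) (p : {p : P // p ∉ A}) :
    Up N p → ({p : P // p ∉ A} → ℝ) →ₗ[ℝ] ℝ := fun j => - nuL A j.1

noncomputable def bcf (lam : A → ℝ) (N : Set {p : P // p ∉ A}) (p : {p : P // p ∉ A}) :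
    Up N p → ℝ := fun j => - cst lam j.1

theorem sum_proj (s : Finset {p : P // p ∉ A}) (x : {p : P // p ∉ A} → ℝ) :
    (∑ c ∈ s, (LinearMap.proj c : ({p : P // p ∉ A} → ℝ) →ₗ[ℝ] ℝ)) x = ∑ c ∈ s, x c := by
  simp [LinearMap.sum_apply]

theorem cDf_inl {N S : Set {p : P // p ∉ A}} {b a : P} {s : Finset {p : P // p ∉ A}}
    (h : Valid N S b s a) (x : {p : P // p ∉ A} → ℝ) :
    cDf N S (Sum.inl ⟨(b, s, a), h⟩) x = nuL A b x + ∑ c ∈ s, x c - nuL A a x := by
  show (nuL A b + ∑ c ∈ s, (LinearMap.proj c : ({p : P // p ∉ A} → ℝ) →ₗ[ℝ] ℝ) - nuL A a) x = _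
  rw [LinearMap.sub_apply, LinearMap.add_apply, sum_proj]

theorem cDf_inr {N S : Set {p : P // p ∉ A}} (c : {c // c ∈ S}) (x : {p : P // p ∉ A} → ℝ) :
    cDf N S (Sum.inr c) x = - x c.1 := rfl

theorem af_val (lam : A → ℝ) {N S : Set {p : P // p ∉ A}} {p : {p : P // p ∉ A}} (k : Ka N S p)
    (x : {p : P // p ∉ A} → ℝ) : af N S p k x + acf lam N S p k =
      mu lam x k.1.1 + ∑ c ∈ k.1.2, x c := by
  show (nuL A k.1.1 + ∑ c ∈ k.1.2, (LinearMap.proj c : ({p : P // p ∉ A} → ℝ) →ₗ[ℝ] ℝ)) x + cst lam k.1.1 = _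
  rw [LinearMap.add_apply, sum_proj, mu_eq]
  ring

theorem af_apply {N S : Set {p : P // p ∉ A}} {p : {p : P // p ∉ A}} (k : Ka N S p)
    (x : {p : P // p ∉ A} → ℝ) : af N S p k x = nuL A k.1.1 x + ∑ c ∈ k.1.2, x c := by
  show (nuL A k.1.1 + ∑ c ∈ k.1.2, (LinearMap.proj c : ({p : P // p ∉ A} → ℝ) →ₗ[ℝ] ℝ)) x = _
  rw [LinearMap.add_apply, sum_proj]

theorem bf_val (lam : A → ℝ) {N : Set {p : P // p ∉ A}} {p : {p : P // p ∉ A}} (j : Up N p)
    (x : {p : P // p ∉ A} → ℝ) : bf N p j x + bcf lam N p j = - mu lam x j.1 := by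
  show (- nuL A j.1) x + - cst lam j.1 = _
  rw [LinearMap.neg_apply, mu_eq]
  ring

section ft

variable [Fintype {p : P // p ∉ A}]

theorem mem_polyD {lam : A → ℝ} {N S : Set {p : P // p ∉ A}} {x : {p : P // p ∉ A} → ℝ} :
    x ∈ poly (cDf N S) (dDf lam N S) ↔
      (∀ b s a, Valid N S b s a → mu lam x b + ∑ c ∈ s, x c ≤ mu lam x a) ∧ ∀ c ∈ S, 0 ≤ x c := by
  constructor
  · intro h
    refine ⟨fun b s a hv => ?_, fun c hc => ?_⟩
    · have h1 := h (Sum.inl ⟨(b, s, a), hv⟩)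
      rw [cDf_inl] at h1
      have h2 : dDf lam N S (Sum.inl ⟨(b, s, a), hv⟩) = cst lam a - cst lam b := rfl
      rw [h2] at h1
      rw [mu_eq, mu_eq]
      linarith
    · have h1 := h (Sum.inr ⟨c, hc⟩)
      rw [cDf_inr] at h1
      have h2 : dDf lam N S (Sum.inr ⟨c, hc⟩) = 0 := rfl
      rw [h2] at h1
      linarith
  · rintro ⟨h1, h2⟩ (⟨⟨b, s, a⟩, hv⟩ | ⟨c, hc⟩)
    · rw [cDf_inl]
      have h3 : dDf lam N S (Sum.inl ⟨(b, s, a), hv⟩) = cst lam a - cst lam b := rfl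
      rw [h3]
      have h4 := h1 b s a hv
      rw [mu_eq, mu_eq] at h4
      linarith
    · rw [cDf_inr]
      have h3 : dDf lam N S (Sum.inr ⟨c, hc⟩) = 0 := rfl
      rw [h3]
      have h4 := h2 c hc
      linarith

theorem tight_inl {lam : A → ℝ} {N S : Set {p : P // p ∉ A}} {x : {p : P // p ∉ A} → ℝ} {b a : P}
    {s : Finset {p : P // p ∉ A}} (h : Valid N S b s a) :
    (Sum.inl ⟨(b, s, a), h⟩ : Dl N S) ∈ tight (cDf N S) (dDf lam N S) x ↔
      mu lam x b + ∑ c ∈ s, x c = mu lam x a := by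
  show cDf N S (Sum.inl ⟨(b, s, a), h⟩) x = cst lam a - cst lam b ↔ _
  rw [cDf_inl, mu_eq, mu_eq]
  constructor <;> intro h <;> linarith

theorem tight_inr {lam : A → ℝ} {N S : Set {p : P // p ∉ A}} {x : {p : P // p ∉ A} → ℝ}
    (c : {c // c ∈ S}) :
    (Sum.inr c : Dl N S) ∈ tight (cDf N S) (dDf lam N S) x ↔ x c.1 = 0 := by
  show - x c.1 = 0 ↔ _
  rw [neg_eq_zero]

end ft

section trans

variable [Finite P] [Fintype {p : P // p ∉ A}]

instance (N S : Set {p : P // p ∉ A}) : Finite (Dl N S) := by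
  unfold Dl
  infer_instance

instance (N S : Set {p : P // p ∉ A}) (p : {p : P // p ∉ A}) : Finite (Ka N S p) := by
  unfold Ka
  infer_instance

instance (N : Set {p : P // p ∉ A}) (p : {p : P // p ∉ A}) : Finite (Up N p) := by
  unfold Up
  infer_instance

open Classical in
theorem trans_co (lam : A → ℝ) (N S : Set {p : P // p ∉ A}) (p : {p : P // p ∉ A})
    (hNS : Disjoint N S) [Nonempty (Ka N S p)] [Nonempty (Up N p)] :
    Trans (cDf N S) (dDf lam N S) (af N S p) (acf lam N S p) (bf N p) (bcf lam N p) := by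
  intro T w hw v hv
  rw [mem_Om_iff] at hw
  obtain ⟨hw1, hw2, rfl⟩ := hw
  rw [mem_polyD] at hw1
  obtain ⟨hw, hw0⟩ := hw1
  have hv' : ∀ b s a, Valid N S b s a → mu lam w b + ∑ c ∈ s, w c = mu lam w a →
      nuL A b v + ∑ c ∈ s, v c = nuL A a v := by
    intro b s a h ht
    have h1 := mem_dirn.1 hv _ ((tight_inl h).2 ht)
    rw [cDf_inl] at h1
    linarith
  have hv0 : ∀ c ∈ S, w c = 0 → v c = 0 := by
    intro c hc h
    have h1 := mem_dirn.1 hv _ ((tight_inr (lam := lam) ⟨c, hc⟩).2 h)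
    rw [cDf_inr] at h1
    linarith
  set r : ℝ := - mx (bf N p) (bcf lam N p) w with hr
  have hU2 : ∀ k : Ka N S p, mu lam w k.1.1 + ∑ c ∈ k.1.2, w c < r := by
    intro k
    have h1 := le_mx (af N S p) (acf lam N S p) w k
    rw [af_val] at h1
    linarith
  set v2 : {p : P // p ∉ A} → ℝ := part N S (mu lam w) (fun n => nuL A n v) w v r with hv2
  have hn : ∀ n ∈ nodes N, nuL A n v2 = if mu lam w n = r then nuL A n v else 0 := by
    rintro n (hn | ⟨q, hq, rfl⟩)
    · rw [nuL_mem hn, nuL_mem hn, ite_self]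
    · rw [nuL_coe, hv2]
      unfold part
      rw [if_pos hq]
  have ht : ∀ b s a, Valid N S b s a → mu lam w b + ∑ c ∈ s, w c = mu lam w a →
      nuL A b v2 + ∑ c ∈ s, v2 c = nuL A a v2 := by
    intro b s a h ht
    let G : Finset {p : P // p ∉ A} → ℝ := fun s' =>
      if mu lam w b + ∑ d ∈ s', w d = r then nuL A b v + ∑ d ∈ s', v d else 0
    have h1 : ∑ c ∈ s, v2 c = ∑ c ∈ s, (G (s.filter (· ≤ c)) - G (s.filter (· < c))) := by
      apply Finset.sum_congr rfl
      intro c hc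
      exact part_of_tight hNS hw hv' h ht hc
    have h2 : G s = if mu lam w a = r then nuL A a v else 0 := by
      show (if mu lam w b + ∑ d ∈ s, w d = r then nuL A b v + ∑ d ∈ s, v d else 0) = _
      rw [ht, hv' b s a h ht]
    have h3 : G ∅ = if mu lam w b = r then nuL A b v else 0 := by
      show (if mu lam w b + ∑ d ∈ ∅, w d = r then nuL A b v + ∑ d ∈ ∅, v d else 0) = _
      rw [Finset.sum_empty, Finset.sum_empty, add_zero, add_zero]
    rw [h1, telescope G s h.chain, hn b h.hb, hn a h.ha, h2, h3]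
    ring
  have hz : ∀ c ∈ S, w c = 0 → v2 c = 0 := by
    intro c hc h
    have hcN : c ∉ N := fun h' => Set.disjoint_left.1 hNS h' hc
    by_cases hex : ∃ t : P × Finset {p : P // p ∉ A} × P, Valid N S t.1 t.2.1 t.2.2 ∧
        mu lam w t.1 + ∑ d ∈ t.2.1, w d = mu lam w t.2.2 ∧ c ∈ t.2.1
    · obtain ⟨⟨b, s, a⟩, h1, h2, h3⟩ := hex
      rw [hv2, part_of_tight hNS hw hv' h1 h2 h3, sum_le_eq h3, sum_le_eq h3, h, hv0 c hc h,
        add_zero, add_zero, sub_self]
    · rw [hv2]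
      unfold part
      rw [if_neg hcN, dif_neg hex]
  have hlow : ∀ c ∈ S, c < p → v2 c = 0 := by
    intro c hc hcp
    have hcN : c ∉ N := fun h' => Set.disjoint_left.1 hNS h' hc
    by_cases hex : ∃ t : P × Finset {p : P // p ∉ A} × P, Valid N S t.1 t.2.1 t.2.2 ∧
        mu lam w t.1 + ∑ d ∈ t.2.1, w d = mu lam w t.2.2 ∧ c ∈ t.2.1
    · obtain ⟨⟨b, s, a⟩, h1, h2, h3⟩ := hex
      have hbc := (h1.bet c h3).1
      have g1 : mu lam w b + ∑ d ∈ s.filter (· ≤ c), w d < r := by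
        refine hU2 ⟨(b, s.filter (· ≤ c)), h1.hb, ?_, ?_, hbc.trans hcp, ?_⟩
        · intro d hd
          rw [Finset.mem_coe, Finset.mem_filter] at hd
          exact h1.hs hd.1
        · exact h1.chain.mono (by
            intro d hd
            rw [Finset.mem_coe, Finset.mem_filter] at hd
            exact hd.1)
        · intro d hd
          rw [Finset.mem_filter] at hd
          exact ⟨(h1.bet d hd.1).1, lt_of_le_of_lt hd.2 hcp⟩
      have g2 := hw0 c hc
      have g3 : mu lam w b + ∑ d ∈ s.filter (· < c), w d < r := by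
        rw [sum_le_eq h3] at g1
        linarith
      rw [hv2, part_of_tight hNS hw hv' h1 h2 h3, if_neg g1.ne, if_neg g3.ne, sub_self]
    · rw [hv2]
      unfold part
      rw [if_neg hcN, dif_neg hex]
  have hka : ∀ k : Ka N S p, af N S p k v2 = 0 := by
    intro k
    rw [af_apply, hn _ k.2.1, if_neg, zero_add]
    · apply Finset.sum_eq_zero
      intro c hc
      exact hlow c (k.2.2.1 hc) (k.2.2.2.2.2 c hc).2
    · have := hU2 ⟨(k.1.1, ∅), k.2.1, by simp, by simp, k.2.2.2.2.1, by simp⟩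
      simp only [Finset.sum_empty, add_zero] at this
      exact this.ne
  refine ⟨v2, ?_, ?_, ?_⟩
  · rw [mem_dirn]
    rintro (⟨⟨b, s, a⟩, h⟩ | ⟨c, hc⟩) hi
    · rw [cDf_inl, ht b s a h ((tight_inl h).1 hi), sub_self]
    · rw [cDf_inr, hz c hc ((tight_inr (lam := lam) ⟨c, hc⟩).1 hi), neg_zero]
  · rw [mem_eqd]
    intro k _ k' _
    rw [hka, hka]
  · rw [mem_eqd]
    have hj : ∀ j ∈ amax (bf N p) (bcf lam N p) w, bf N p j (v - v2) = 0 := by
      intro j hj
      rw [mem_amax_iff, bf_val] at hj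
      show - nuL A j.1 (v - v2) = 0
      have h1 : mu lam w j.1 = r := by rw [hr, ← hj, neg_neg]
      rw [map_sub, hn _ j.2.1, if_pos h1, sub_self, neg_zero]
    intro j hj1 j' hj2
    rw [hj j hj1, hj j' hj2]

end trans

end co

end Pool.Agent.W304.HL
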