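import Pool.Agent.W304.HL.Faces

/-!
The core comparison: two transversal families of piecewise linear functions on a polyhedron.
-/

set_option linter.unusedSectionVars false

namespace Pool.Agent.W304.HL

open Set Filter Topology

section core

variable {V : Type*} [NormedAddCommGroup V] [NormedSpace ℝ V] [FiniteDimensional ℝ V]

/-- indices of the maximal members of a family of affine functions -/
def amax {κ : Type*} (a : κ → V →ₗ[ℝ] ℝ) (ac : κ → ℝ) (x : V) : Set κ :=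
  {k | ∀ k', a k' x + ac k' ≤ a k x + ac k}

/-- directions on which the members of `K` have equal slopes -/
def eqd {κ : Type*} (a : κ → V →ₗ[ℝ] ℝ) (K : Set κ) : Submodule ℝ V :=
  ⨅ k ∈ K, ⨅ k' ∈ K, LinearMap.ker (a k - a k')

theorem mem_eqd {κ : Type*} {a : κ → V →ₗ[ℝ] ℝ} {K : Set κ} {v : V} :
    v ∈ eqd a K ↔ ∀ k ∈ K, ∀ k' ∈ K, a k v = a k' v := by
  simp [eqd, Submodule.mem_iInf, sub_eq_zero]

theorem amax_nonempty {κ : Type*} [Finite κ] [Nonempty κ] (a : κ → V →ₗ[ℝ] ℝ) (ac : κ → ℝ)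
    (x : V) : (amax a ac x).Nonempty := by
  obtain ⟨k, hk⟩ := Finite.exists_max (fun k => a k x + ac k)
  exact ⟨k, hk⟩

theorem amax_eq {κ : Type*} {a : κ → V →ₗ[ℝ] ℝ} {ac : κ → ℝ} {x : V} {k k' : κ}
    (hk : k ∈ amax a ac x) (hk' : k' ∈ amax a ac x) : a k x + ac k = a k' x + ac k' :=
  le_antisymm (hk' k) (hk k')

theorem lt_of_notMem_amax {κ : Type*} {a : κ → V →ₗ[ℝ] ℝ} {ac : κ → ℝ} {x : V} {k k' : κ}
    (hk : k ∈ amax a ac x) (hk' : k' ∉ amax a ac x) : a k' x + ac k' < a k x + ac k := by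
  refine lt_of_le_of_ne (hk k') fun h => hk' fun k'' => ?_
  rw [h]
  exact hk k''

theorem cont_val {κ : Type*} (a : κ → V →ₗ[ℝ] ℝ) (ac : κ → ℝ) (k : κ) :
    Continuous (fun x => a k x + ac k) := (cont_lin (a k)).add continuous_const

theorem ev_lt {κ : Type*} [Finite κ] [Nonempty κ] (a : κ → V →ₗ[ℝ] ℝ) (ac : κ → ℝ) (x : V) :
    ∀ᶠ y in 𝓝 x, ∀ k ∈ amax a ac x, ∀ k', k' ∉ amax a ac x → a k' y + ac k' < a k y + ac k := by
  rw [eventually_all]
  intro k
  by_cases hk : k ∈ amax a ac x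
  · have : ∀ᶠ y in 𝓝 x, ∀ k', k' ∉ amax a ac x → a k' y + ac k' < a k y + ac k := by
      rw [eventually_all]
      intro k'
      by_cases hk' : k' ∈ amax a ac x
      · exact Eventually.of_forall fun y h => absurd hk' h
      · filter_upwards [(cont_val a ac k').continuousAt.eventually_lt
          (cont_val a ac k).continuousAt (lt_of_notMem_amax hk hk')] with y hy _
        exact hy
    filter_upwards [this] with y hy _
    exact hy
  · exact Eventually.of_forall fun y h => absurd h hk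

theorem ev_amax_subset {κ : Type*} [Finite κ] [Nonempty κ] (a : κ → V →ₗ[ℝ] ℝ) (ac : κ → ℝ)
    (x : V) : ∀ᶠ y in 𝓝 x, amax a ac y ⊆ amax a ac x := by
  filter_upwards [ev_lt a ac x] with y hy k hk
  by_contra h
  obtain ⟨k0, hk0⟩ := amax_nonempty a ac x
  exact absurd (hk k0) (not_le.2 (hy k0 hk0 k h))

/-- the members of `amax` of maximal slope in direction `v` -/
def dmax {κ : Type*} (a : κ → V →ₗ[ℝ] ℝ) (ac : κ → ℝ) (x v : V) : Set κ :=
  {k | k ∈ amax a ac x ∧ ∀ k' ∈ amax a ac x, a k' v ≤ a k v}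

theorem ev_amax_line {κ : Type*} [Finite κ] [Nonempty κ] (a : κ → V →ₗ[ℝ] ℝ) (ac : κ → ℝ)
    (x v : V) : ∀ᶠ t in 𝓝[>] (0 : ℝ), amax a ac (x + t • v) = dmax a ac x v := by
  have h1 := (tendsto_line x v).eventually (ev_lt a ac x)
  filter_upwards [h1.filter_mono nhdsWithin_le_nhds, self_mem_nhdsWithin] with t ht ht0
  have ht0' : (0:ℝ) < t := ht0
  obtain ⟨k0, hk0⟩ := amax_nonempty a ac x
  ext k
  constructor
  · intro hk
    have hkm : k ∈ amax a ac x := by
      by_contra h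
      exact absurd (hk k0) (not_le.2 (ht k0 hk0 k h))
    refine ⟨hkm, fun k' hk' => ?_⟩
    have h2 := hk k'
    have h3 := amax_eq hkm hk'
    simp only [map_add, map_smul, smul_eq_mul] at h2
    have h4 : t * a k' v ≤ t * a k v := by linarith
    exact le_of_mul_le_mul_left h4 ht0'
  · rintro ⟨hk, hm⟩ k'
    by_cases hk' : k' ∈ amax a ac x
    · have h3 := amax_eq hk hk'
      have h4 := mul_le_mul_of_nonneg_left (hm k' hk') ht0'.le
      simp only [map_add, map_smul, smul_eq_mul]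
      linarith
    · exact (ht k hk k' hk').le

theorem dmax_sub {κ : Type*} {a : κ → V →ₗ[ℝ] ℝ} {ac : κ → ℝ} [Finite κ] [Nonempty κ]
    {w w' : V} (h : amax a ac w' ⊆ amax a ac w) : dmax a ac w (w' - w) = amax a ac w' := by
  obtain ⟨k0, hk0⟩ := amax_nonempty a ac w'
  ext k
  constructor
  · rintro ⟨hk, hm⟩ k'
    have h1 := hm k0 (h hk0)
    have h2 := amax_eq hk (h hk0)
    have h3 := hk0 k'
    rw [map_sub, map_sub] at h1
    linarith
  · intro hk
    refine ⟨h hk, fun k' hk' => ?_⟩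
    have h1 := hk k'
    have h2 := amax_eq hk' (h hk)
    rw [map_sub, map_sub]
    linarith

theorem dmax_congr {κ : Type*} {a : κ → V →ₗ[ℝ] ℝ} {ac : κ → ℝ} 
    {w v v' : V} (h : v - v' ∈ eqd a (amax a ac w)) : dmax a ac w v = dmax a ac w v' := by
  rw [mem_eqd] at h
  ext k
  constructor
  · rintro ⟨hk, hm⟩
    refine ⟨hk, fun k' hk' => ?_⟩
    have h1 := hm k' hk'
    have h2 := h k hk k' hk'
    rw [map_sub, map_sub] at h2
    linarith
  · rintro ⟨hk, hm⟩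
    refine ⟨hk, fun k' hk' => ?_⟩
    have h1 := hm k' hk'
    have h2 := h k hk k' hk'
    rw [map_sub, map_sub] at h2
    linarith

variable {δ κ υ : Type*} [Finite δ] [Finite κ] [Nonempty κ] [Finite υ] [Nonempty υ]

/-- the part of the base where the two functions `max a` and `-max b` differ -/
def Om (cD : δ → V →ₗ[ℝ] ℝ) (dD : δ → ℝ) (a : κ → V →ₗ[ℝ] ℝ) (ac : κ → ℝ)
    (b : υ → V →ₗ[ℝ] ℝ) (bc : υ → ℝ) (T : Set δ) : Set V :=
  {x | x ∈ poly cD dD ∧ (∀ k j, (a k x + ac k) + (b j x + bc j) < 0) ∧ tight cD dD x = T}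

/-- transversality of the two families -/
def Trans (cD : δ → V →ₗ[ℝ] ℝ) (dD : δ → ℝ) (a : κ → V →ₗ[ℝ] ℝ) (ac : κ → ℝ)
    (b : υ → V →ₗ[ℝ] ℝ) (bc : υ → ℝ) : Prop :=
  ∀ T, ∀ w ∈ Om cD dD a ac b bc T, ∀ v ∈ dirn cD T, ∃ v1 ∈ dirn cD T,
    v1 ∈ eqd a (amax a ac w) ∧ v - v1 ∈ eqd b (amax b bc w)

variable {cD : δ → V →ₗ[ℝ] ℝ} {dD : δ → ℝ} {a : κ → V →ₗ[ℝ] ℝ} {ac : κ → ℝ}
    {b : υ → V →ₗ[ℝ] ℝ} {bc : υ → ℝ}

theorem Om_symm (T : Set δ) : Om cD dD a ac b bc T = Om cD dD b bc a ac T := by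
  ext x
  constructor
  · rintro ⟨h1, h2, h3⟩
    exact ⟨h1, fun k j => by linarith [h2 j k], h3⟩
  · rintro ⟨h1, h2, h3⟩
    exact ⟨h1, fun k j => by linarith [h2 j k], h3⟩

theorem Trans.symm (h : Trans cD dD a ac b bc) : Trans cD dD b bc a ac := by
  intro T w hw v hv
  rw [Om_symm] at hw
  obtain ⟨v1, h1, h2, h3⟩ := h T w hw v hv
  exact ⟨v - v1, Submodule.sub_mem _ hv h1, h3, by simpa using h2⟩

theorem ev_Om {T : Set δ} {w v : V} (hw : w ∈ Om cD dD a ac b bc T) (hv : v ∈ dirn cD T) :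
    ∀ᶠ t in 𝓝 (0 : ℝ), w + t • v ∈ Om cD dD a ac b bc T := by
  obtain ⟨h1, h2, rfl⟩ := hw
  have h3 : ∀ᶠ y in 𝓝 w, ∀ k j, (a k y + ac k) + (b j y + bc j) < 0 := by
    rw [eventually_all]
    intro k
    rw [eventually_all]
    intro j
    have hc : Continuous (fun y => (a k y + ac k) + (b j y + bc j)) :=
      (cont_val a ac k).add (cont_val b bc j)
    exact hc.continuousAt.eventually_lt continuousAt_const (h2 k j)
  filter_upwards [(tendsto_line w v).eventually h3, ev_line h1 hv] with t ht1 ht2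
  exact ⟨ht2.1, ht1, ht2.2⟩

theorem convex_Om (T : Set δ) : Convex ℝ (Om cD dD a ac b bc T) := by
  rw [convex_iff_forall_pos]
  rintro x ⟨hx1, hx2, hx3⟩ y ⟨hy1, hy2, hy3⟩ p q hp hq hpq
  refine ⟨convex_poly cD dD hx1 hy1 hp.le hq.le hpq, fun k j => ?_, ?_⟩
  · have h1 := hx2 k j
    have h2 := hy2 k j
    have h3 : (a k (p • x + q • y) + ac k) + (b j (p • x + q • y) + bc j) =
        p * ((a k x + ac k) + (b j x + bc j)) + q * ((a k y + ac k) + (b j y + bc j)) := by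
      simp only [map_add, map_smul, smul_eq_mul]
      linear_combination (-(ac k) - bc j) * hpq
    rw [h3]
    have h4 := mul_neg_of_pos_of_neg hp h1
    have h5 := mul_neg_of_pos_of_neg hq h2
    linarith
  · rw [← hx3]
    ext i
    constructor
    · intro hi
      have h1 : cD i (p • x + q • y) = dD i := hi
      rw [map_add, map_smul, map_smul, smul_eq_mul, smul_eq_mul] at h1
      have h2 := hx1 i
      have h3 := hy1 i
      have h4 : p * (dD i - cD i x) + q * (dD i - cD i y) = 0 := by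
        linear_combination (dD i) * hpq - h1
      have h5 : 0 ≤ q * (dD i - cD i y) := mul_nonneg hq.le (by linarith)
      have h6 : 0 ≤ p * (dD i - cD i x) := mul_nonneg hp.le (by linarith)
      have h7 : p * (dD i - cD i x) = 0 := by linarith
      have h8 : dD i - cD i x = 0 := by
        rcases mul_eq_zero.1 h7 with h | h
        · exact absurd h hp.ne'
        · exact h
      show cD i x = dD i
      linarith
    · intro hi
      have hi' : i ∈ tight cD dD y := by rw [hy3, ← hx3]; exact hi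
      have h1 : cD i x = dD i := hi
      have h2 : cD i y = dD i := hi'
      show cD i (p • x + q • y) = dD i
      rw [map_add, map_smul, map_smul, smul_eq_mul, smul_eq_mul, h1, h2, ← add_mul, hpq, one_mul]

theorem sub_mem_dirn {T : Set δ} {x y : V} (hx : x ∈ Om cD dD a ac b bc T)
    (hy : y ∈ Om cD dD a ac b bc T) : x - y ∈ dirn cD T := by
  rw [mem_dirn]
  intro i hi
  have h1 : i ∈ tight cD dD x := hx.2.2.symm ▸ hi
  have h2 : i ∈ tight cD dD y := hy.2.2.symm ▸ hi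
  have h3 : cD i x = dD i := h1
  have h4 : cD i y = dD i := h2
  rw [map_sub, h3, h4, sub_self]

theorem glue (hT : Trans cD dD a ac b bc) {T : Set δ} {w w' w'' : V}
    (hw : w ∈ Om cD dD a ac b bc T) (hw' : w' ∈ Om cD dD a ac b bc T)
    (hw'' : w'' ∈ Om cD dD a ac b bc T) (ha : amax a ac w' ⊆ amax a ac w)
    (hb : amax b bc w'' ⊆ amax b bc w) :
    ∃ z ∈ Om cD dD a ac b bc T, amax a ac z = amax a ac w' ∧ amax b bc z = amax b bc w'' := by
  obtain ⟨v1, h1, h2, h3⟩ := hT T w hw (w' - w) (sub_mem_dirn hw' hw)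
  obtain ⟨v1', h1', h2', h3'⟩ := hT T w hw (w'' - w) (sub_mem_dirn hw'' hw)
  -- direction `v'' = (v - v1) + v1'`
  set u : V := (w' - w - v1) + v1' with hu
  have hud : u ∈ dirn cD T :=
    Submodule.add_mem _ (Submodule.sub_mem _ (sub_mem_dirn hw' hw) h1) h1'
  have e1 : u - (w' - w) ∈ eqd a (amax a ac w) := by
    have : u - (w' - w) = v1' - v1 := by rw [hu]; abel
    rw [this]
    exact Submodule.sub_mem _ h2' h2
  have e2 : u - (w'' - w) ∈ eqd b (amax b bc w) := by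
    have : u - (w'' - w) = (w' - w - v1) - (w'' - w - v1') := by rw [hu]; abel
    rw [this]
    exact Submodule.sub_mem _ h3 h3'
  have f1 := (ev_Om hw hud).filter_mono (nhdsWithin_le_nhds (s := Ioi (0:ℝ)))
  obtain ⟨t, ⟨ht1, ht2⟩, ht3⟩ :=
    ((f1.and (ev_amax_line a ac w u)).and (ev_amax_line b bc w u)).exists
  refine ⟨w + t • u, ht1, ?_, ?_⟩
  · rw [ht2, dmax_congr e1, dmax_sub ha]
  · rw [ht3, dmax_congr e2, dmax_sub hb]

theorem generic (hT : Trans cD dD a ac b bc) {T : Set δ} {w : V}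
    (hw : w ∈ Om cD dD a ac b bc T) :
    ∃ z ∈ Om cD dD a ac b bc T, amax a ac z = amax a ac w ∧ amax b bc z ⊆ amax b bc w ∧
      dirn cD T ≤ eqd b (amax b bc z) := by
  classical
  have hex : ∃ n : ℕ, ∃ z ∈ Om cD dD a ac b bc T, amax a ac z = amax a ac w ∧
      amax b bc z ⊆ amax b bc w ∧ (amax b bc z).ncard = n := ⟨_, w, hw, rfl, subset_rfl, rfl⟩
  obtain ⟨z, hz, hz1, hz2, hz3⟩ := Nat.find_spec hex
  refine ⟨z, hz, hz1, hz2, ?_⟩
  intro v hv
  rw [mem_eqd]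
  by_contra hne
  push Not at hne
  obtain ⟨j, hj, j', hj', hjj⟩ := hne
  obtain ⟨v1, h1, h2, h3⟩ := hT T z hz v hv
  have h4 : b j v1 ≠ b j' v1 := by
    intro h
    apply hjj
    have := mem_eqd.1 h3 j hj j' hj'
    rw [map_sub, map_sub] at this
    linarith
  have f1 := (ev_Om hz h1).filter_mono (nhdsWithin_le_nhds (s := Ioi (0:ℝ)))
  obtain ⟨t, ⟨ht1, ht2⟩, ht3⟩ :=
    ((f1.and (ev_amax_line a ac z v1)).and (ev_amax_line b bc z v1)).exists
  have g1 : amax a ac (z + t • v1) = amax a ac z := by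
    rw [ht2]
    ext k
    constructor
    · exact fun h => h.1
    · exact fun h => ⟨h, fun k' hk' => (mem_eqd.1 h2 k' hk' k h).le⟩
  have g2 : amax b bc (z + t • v1) ⊂ amax b bc z := by
    rw [ht3]
    refine ⟨fun k hk => hk.1, fun hsub => h4 ?_⟩
    exact le_antisymm ((hsub hj').2 j hj) ((hsub hj).2 j' hj')
  have g3 := Set.ncard_lt_ncard g2 (Set.toFinite _)
  rw [hz3] at g3
  exact absurd (Nat.find_min' hex ⟨_, ht1, g1.trans hz1, g2.subset.trans hz2, rfl⟩)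
    (not_le.2 g3)

theorem core_const (hT : Trans cD dD a ac b bc) (n : ℕ) (Fb Ft : V → ℝ) (T : Set δ)
    (hn : Module.finrank ℝ (dirn cD T) = n)
    (h1 : ∀ w ∈ Om cD dD a ac b bc T, ∀ w' ∈ Om cD dD a ac b bc T,
      amax a ac w = amax a ac w' → Fb w = Fb w')
    (h2 : ∀ w ∈ Om cD dD a ac b bc T, ∀ w' ∈ Om cD dD a ac b bc T,
      amax b bc w = amax b bc w' → Ft w = Ft w')
    (h4 : ∀ w ∈ Om cD dD a ac b bc T, Module.finrank ℝ
      ↥(dirn cD T ⊓ (eqd a (amax a ac w) ⊓ eqd b (amax b bc w))) = n → Fb w = Ft w)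
    (h5 : ∃ w' ∈ Om cD dD a ac b bc T, dirn cD T ≤ eqd a (amax a ac w') ∧ Fb w' = 0) :
    ∀ w ∈ Om cD dD a ac b bc T, (dirn cD T ≤ eqd a (amax a ac w) → Fb w = 0) ∧
      (dirn cD T ≤ eqd b (amax b bc w) → Ft w = 0) := by
  -- the local value
  have hpair : ∀ w ∈ Om cD dD a ac b bc T, ∀ w' ∈ Om cD dD a ac b bc T,
      ∀ w'' ∈ Om cD dD a ac b bc T, amax a ac w' ⊆ amax a ac w → amax b bc w'' ⊆ amax b bc w →
      dirn cD T ≤ eqd a (amax a ac w') → dirn cD T ≤ eqd b (amax b bc w'') → Fb w' = Ft w'' := by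
    intro w hw w' hw' w'' hw'' ha hb ha' hb'
    obtain ⟨z, hz, hz1, hz2⟩ := glue hT hw hw' hw'' ha hb
    rw [h1 w' hw' z hz hz1.symm, h2 w'' hw'' z hz hz2.symm]
    apply h4 z hz
    rw [hz1, hz2, inf_eq_left.2 (le_inf ha' hb'), hn]
  have hex : ∀ w ∈ Om cD dD a ac b bc T, ∃ r : ℝ,
      (∀ w' ∈ Om cD dD a ac b bc T, amax a ac w' ⊆ amax a ac w →
        dirn cD T ≤ eqd a (amax a ac w') → Fb w' = r) ∧
      (∀ w'' ∈ Om cD dD a ac b bc T, amax b bc w'' ⊆ amax b bc w →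
        dirn cD T ≤ eqd b (amax b bc w'') → Ft w'' = r) := by
    intro w hw
    obtain ⟨z, hz, hz1, hz2, hz3⟩ := generic hT hw
    have hw2 : w ∈ Om cD dD b bc a ac T := by rw [← Om_symm]; exact hw
    obtain ⟨y, hy, hy1, hy2, hy3⟩ := generic hT.symm hw2
    rw [← Om_symm] at hy
    refine ⟨Fb y, fun w' hw' ha ha' => ?_, fun w'' hw'' hb hb' => ?_⟩
    · rw [hpair w hw w' hw' z hz ha hz2 ha' hz3, hpair w hw y hy z hz hy2 hz2 hy3 hz3]
    · rw [hpair w hw y hy w'' hw'' hy2 hb hy3 hb']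
  choose! r hr1 hr2 using hex
  have hloc : ∀ w ∈ Om cD dD a ac b bc T, ∀ w1 ∈ Om cD dD a ac b bc T,
      amax a ac w1 ⊆ amax a ac w → r w1 = r w := by
    intro w hw w1 hw1 ha
    have hw2 : w1 ∈ Om cD dD b bc a ac T := by rw [← Om_symm]; exact hw1
    obtain ⟨y, hy, hy1, hy2, hy3⟩ := generic hT.symm hw2
    rw [← Om_symm] at hy
    rw [← hr1 w hw y hy (hy2.trans ha) hy3, ← hr1 w1 hw1 y hy hy2 hy3]
  have hconst : ∀ w ∈ Om cD dD a ac b bc T, ∀ w1 ∈ Om cD dD a ac b bc T, r w = r w1 := by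
    intro w hw w1 hw1
    apply (convex_Om T).isPreconnected.induction₂ (fun x y => r x = r y) (fun x hx => ?_)
      (fun x y z _ _ _ hxy hyz => hxy.trans hyz) (fun x y _ _ hxy => hxy.symm) hw hw1
    filter_upwards [mem_nhdsWithin_of_mem_nhds (ev_amax_subset a ac x), self_mem_nhdsWithin]
      with y hy hy'
    exact (hloc x hx y hy' hy).symm
  obtain ⟨w0, hw0, hw01, hw02⟩ := h5
  intro w hw
  have hrw : r w = 0 := by
    rw [hconst w hw w0 hw0, ← hr1 w0 hw0 w0 hw0 subset_rfl hw01, hw02]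
  refine ⟨fun h => ?_, fun h => ?_⟩
  · rw [hr1 w hw w hw subset_rfl h, hrw]
  · rw [hr2 w hw w hw subset_rfl h, hrw]

theorem le_of_finrank_eq {E F : Submodule ℝ V}
    (h : Module.finrank ℝ ↥(E ⊓ F) = Module.finrank ℝ E) : E ≤ F := by
  have h1 : E ⊓ F = E := Submodule.eq_of_le_of_finrank_eq inf_le_left h
  exact inf_eq_left.1 h1

theorem core (hT : Trans cD dD a ac b bc) (n : ℕ) (Fb Ft : V → ℝ)
    (h1 : ∀ T, ∀ w ∈ Om cD dD a ac b bc T, ∀ w' ∈ Om cD dD a ac b bc T,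
      amax a ac w = amax a ac w' → Fb w = Fb w')
    (h2 : ∀ T, ∀ w ∈ Om cD dD a ac b bc T, ∀ w' ∈ Om cD dD a ac b bc T,
      amax b bc w = amax b bc w' → Ft w = Ft w')
    (h3 : ∀ T, ∀ w ∈ Om cD dD a ac b bc T,
      Module.finrank ℝ ↥(dirn cD T ⊓ eqd a (amax a ac w)) ≠ n → Fb w = 0)
    (h3' : ∀ T, ∀ w ∈ Om cD dD a ac b bc T,
      Module.finrank ℝ ↥(dirn cD T ⊓ eqd b (amax b bc w)) ≠ n → Ft w = 0)
    (h4 : ∀ T, ∀ w ∈ Om cD dD a ac b bc T, Module.finrank ℝ
      ↥(dirn cD T ⊓ (eqd a (amax a ac w) ⊓ eqd b (amax b bc w))) = n → Fb w = Ft w)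
    (h5 : ∀ T, (Om cD dD a ac b bc T).Nonempty → Module.finrank ℝ (dirn cD T) = n →
      ∃ w' ∈ Om cD dD a ac b bc T, dirn cD T ≤ eqd a (amax a ac w') ∧ Fb w' = 0) :
    ∀ T, ∀ w ∈ Om cD dD a ac b bc T, Fb w = 0 ∧ Ft w = 0 := by
  intro T w hw
  by_cases hn : Module.finrank ℝ (dirn cD T) = n
  · obtain ⟨g1, g2⟩ := core_const hT n Fb Ft T hn (h1 T) (h2 T) (h4 T) (h5 T ⟨w, hw⟩ hn) w hw
    constructor
    · by_cases h : Module.finrank ℝ ↥(dirn cD T ⊓ eqd a (amax a ac w)) = n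
      · exact g1 (le_of_finrank_eq (h.trans hn.symm))
      · exact h3 T w hw h
    · by_cases h : Module.finrank ℝ ↥(dirn cD T ⊓ eqd b (amax b bc w)) = n
      · exact g2 (le_of_finrank_eq (h.trans hn.symm))
      · exact h3' T w hw h
  · constructor
    · by_cases h : Module.finrank ℝ ↥(dirn cD T ⊓ eqd a (amax a ac w)) = n
      · obtain ⟨z, hz, hz1, hz2, hz3⟩ := generic hT hw
        rw [h1 T w hw z hz hz1.symm, h4 T z hz, h3' T z hz]
        · rw [inf_eq_left.2 hz3]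
          exact hn
        · rw [hz1, ← inf_assoc, inf_eq_left.2 ((inf_le_left).trans hz3), h]
      · exact h3 T w hw h
    · by_cases h : Module.finrank ℝ ↥(dirn cD T ⊓ eqd b (amax b bc w)) = n
      · have hw2 : w ∈ Om cD dD b bc a ac T := by rw [← Om_symm]; exact hw
        obtain ⟨z, hz, hz1, hz2, hz3⟩ := generic hT.symm hw2
        rw [← Om_symm] at hz
        rw [h2 T w hw z hz hz1.symm, ← h4 T z hz, h3 T z hz]
        · rw [inf_eq_left.2 hz3]
          exact hn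
        · rw [hz1, inf_comm (eqd a (amax a ac z)), ← inf_assoc,
            inf_eq_left.2 ((inf_le_left).trans hz3), h]
      · exact h3' T w hw h

end core

end Pool.Agent.W304.HL
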