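import Pool.Agent.W304.HL.Shear

/-!
The inequality between the face numbers of `{M ≤ s ≤ U}` and `{0 ≤ s ≤ U - M}`.
-/

set_option linter.unusedSectionVars false

namespace Pool.Agent.W304.HL

open Set Filter Topology

theorem card_le_of_linear {X Y : Type*} [Finite X] [Finite Y] (L : (X → ℝ) →ₗ[ℝ] (Y → ℝ))
    (hL : ∀ f, L f = 0 → f = 0) : Nat.card X ≤ Nat.card Y := by
  have := Fintype.ofFinite X
  have := Fintype.ofFinite Y
  have h1 : Function.Injective L := (injective_iff_map_eq_zero L).2 hL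
  have h2 := LinearMap.finrank_le_finrank_of_injective h1
  rw [Module.finrank_fintype_fun_eq_card, Module.finrank_fintype_fun_eq_card] at h2
  rwa [Nat.card_eq_fintype_card, Nat.card_eq_fintype_card]

section ev

variable {V : Type*} [NormedAddCommGroup V] [NormedSpace ℝ V] [FiniteDimensional ℝ V]
variable {I : Type*} (c : I → V →ₗ[ℝ] ℝ) (d : I → ℝ) (n : ℕ)

open Classical in
/-- evaluation of a function on the faces of dimension `n` at the face of a point -/
noncomputable def ev (x : V) : (ftypes c d n → ℝ) →ₗ[ℝ] ℝ :=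
  if h : tight c d x ∈ ftypes c d n ∧ x ∈ poly c d then LinearMap.proj ⟨tight c d x, h.1⟩ else 0

variable {c d n}

theorem ev_congr {x x' : V} (hx : x ∈ poly c d) (hx' : x' ∈ poly c d)
    (h : tight c d x = tight c d x') : ev c d n x = ev c d n x' := by
  unfold ev
  by_cases h1 : tight c d x ∈ ftypes c d n
  · rw [dif_pos ⟨h1, hx⟩, dif_pos ⟨h ▸ h1, hx'⟩]
    congr 1
    exact Subtype.ext h
  · rw [dif_neg (fun h2 => h1 h2.1), dif_neg (fun h2 => h1 (h ▸ h2.1))]

theorem ev_zero {x : V} (h : Module.finrank ℝ (dirn c (tight c d x)) ≠ n) : ev c d n x = 0 := by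
  unfold ev
  rw [dif_neg]
  rintro ⟨⟨-, h2⟩, -⟩
  exact h h2

theorem ev_apply {x : V} (hx : x ∈ poly c d) (f : ftypes c d n → ℝ) (τ : ftypes c d n)
    (h : tight c d x = τ) : ev c d n x f = f τ := by
  unfold ev
  have h1 : tight c d x ∈ ftypes c d n := h ▸ τ.2
  rw [dif_pos ⟨h1, hx⟩, LinearMap.proj_apply]
  congr 1
  exact Subtype.ext h

theorem tight_mem_ftypes {x : V} (hx : x ∈ poly c d)
    (h : Module.finrank ℝ (dirn c (tight c d x)) = n) : tight c d x ∈ ftypes c d n :=
  ⟨⟨x, hx, rfl⟩, h⟩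

end ev

section count

variable {V : Type*} [NormedAddCommGroup V] [NormedSpace ℝ V] [FiniteDimensional ℝ V]
variable {δ κ υ : Type*} [Finite δ] [Finite κ] [Nonempty κ] [Finite υ] [Nonempty υ]
variable {cD : δ → V →ₗ[ℝ] ℝ} {dD : δ → ℝ} {a : κ → V →ₗ[ℝ] ℝ} {ac : κ → ℝ}
    {b : υ → V →ₗ[ℝ] ℝ} {bc : υ → ℝ} {s : V →ₗ[ℝ] ℝ} {e : V}

/-- the lowest point over `x` -/
noncomputable def bot (a : κ → V →ₗ[ℝ] ℝ) (ac : κ → ℝ) (s : V →ₗ[ℝ] ℝ) (e x : V) : V :=
  x + (mx a ac x - s x) • e

/-- the highest point over `x` -/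
noncomputable def top (b : υ → V →ₗ[ℝ] ℝ) (bc : υ → ℝ) (s : V →ₗ[ℝ] ℝ) (e x : V) : V :=
  x + (- mx b bc x - s x) • e

/-- the point over `x` at height `r` -/
noncomputable def lift (s : V →ₗ[ℝ] ℝ) (e x : V) (r : ℝ) : V := x + (r - s x) • e

theorem ncard_ftypes_le (hc : ∀ i, cD i e = 0) (ha : ∀ k, a k e = 0) (hb : ∀ j, b j e = 0)
    (hs : s e = 1) (hle : ∀ x ∈ poly cD dD, ∀ k j, (a k x + ac k) + (b j x + bc j) ≤ 0)
    (hT : Trans cD dD a ac b bc) (n : ℕ) :
    (ftypes (c0 cD a b s) (d0 dD ac bc) n).ncard ≤ (ftypes (c1 cD a b s) (d1 dD ac bc) n).ncard := by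
  classical
  have hle' : ∀ x ∈ poly cD dD, mx a ac x + mx b bc x ≤ 0 := fun x hx => hle x hx _ _
  -- points over `x`
  have hsl : ∀ x r, s (lift s e x r) = r := by
    intro x r
    simp [lift, hs]
  have hlD : ∀ x r, lift s e x r ∈ poly cD dD ↔ x ∈ poly cD dD := fun x r => poly_shift hc _
  have hlt : ∀ x r, tight cD dD (lift s e x r) = tight cD dD x := fun x r => tight_shift hc _
  have hla : ∀ x r, amax a ac (lift s e x r) = amax a ac x := fun x r => amax_shift ha _ _
  have hlb : ∀ x r, amax b bc (lift s e x r) = amax b bc x := fun x r => amax_shift hb _ _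
  have hma : ∀ x r, mx a ac (lift s e x r) = mx a ac x := fun x r => mx_shift ha _ _
  have hmb : ∀ x r, mx b bc (lift s e x r) = mx b bc x := fun x r => mx_shift hb _ _
  have hll : ∀ x r r', lift s e (lift s e x r) r' = lift s e x r' := by
    intro x r r'
    unfold lift
    rw [map_add, map_smul, hs, smul_eq_mul, mul_one, add_assoc, ← add_smul]
    congr 2
    ring
  have hself : ∀ x, lift s e x (s x) = x := by
    intro x
    simp [lift]
  have hlOm : ∀ T x r, lift s e x r ∈ Om cD dD a ac b bc T ↔ x ∈ Om cD dD a ac b bc T :=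
    fun T x r => Om_shift hc ha hb _
  -- tight sets
  have hak : ∀ x r k, a k (lift s e x r) + ac k = a k x + ac k := by
    intro x r k
    simp [lift, ha]
  have hbj : ∀ x r j, b j (lift s e x r) + bc j = b j x + bc j := by
    intro x r j
    simp [lift, hb]
  -- generic points
  have hgen : ∀ T : Set δ, ∃ z : V, (Om cD dD a ac b bc T).Nonempty →
      z ∈ Om cD dD a ac b bc T ∧ dirn cD T ≤ eqd a (amax a ac z) := by
    intro T
    by_cases h : (Om cD dD a ac b bc T).Nonempty
    · obtain ⟨w, hw⟩ := h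
      rw [Om_symm] at hw
      obtain ⟨z, hz, -, -, hz3⟩ := generic hT.symm hw
      rw [← Om_symm] at hz
      exact ⟨z, fun _ => ⟨hz, hz3⟩⟩
    · exact ⟨0, fun h' => absurd h' h⟩
  choose gen hgen using hgen
  set E0 := ev (c0 cD a b s) (d0 dD ac bc) n with hE0
  -- the linear functionals
  let G : V → ((ftypes (c0 cD a b s) (d0 dD ac bc) n → ℝ) →ₗ[ℝ] ℝ) := fun y =>
    if mx a ac y + mx b bc y < 0 then
      if s y = 0 then E0 (lift s e (gen (tight cD dD y)) (mx a ac (gen (tight cD dD y))))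
      else if mx a ac y + mx b bc y + s y = 0 then
        E0 (lift s e y (mx a ac y)) - E0 (lift s e y (- mx b bc y))
      else E0 (lift s e y (s y + mx a ac y))
    else E0 (lift s e y (mx a ac y))
  -- membership
  have hP0 : ∀ x r, x ∈ poly cD dD → mx a ac x ≤ r → mx b bc x ≤ - r →
      lift s e x r ∈ poly (c0 cD a b s) (d0 dD ac bc) := by
    intro x r hx h1 h2
    rw [mem_P0, hlD, hma, hmb, hsl]
    exact ⟨hx, h1, h2⟩
  have hP1 : ∀ x r, x ∈ poly cD dD → 0 ≤ r → mx a ac x + mx b bc x + r ≤ 0 →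
      lift s e x r ∈ poly (c1 cD a b s) (d1 dD ac bc) := by
    intro x r hx h1 h2
    rw [mem_P1, hlD, hma, hmb, hsl]
    exact ⟨hx, h1, h2⟩
  have hbot : ∀ x, x ∈ poly cD dD → lift s e x (mx a ac x) ∈ poly (c0 cD a b s) (d0 dD ac bc) :=
    fun x hx => hP0 x _ hx le_rfl (by linarith [hle' x hx])
  have htop : ∀ x, x ∈ poly cD dD → lift s e x (- mx b bc x) ∈ poly (c0 cD a b s) (d0 dD ac bc) :=
    fun x hx => hP0 x _ hx (by linarith [hle' x hx]) (by rw [neg_neg])
  -- congruence for bottom, top, vertical and degenerate points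
  have cb : ∀ x x', x ∈ poly cD dD → x' ∈ poly cD dD → mx a ac x + mx b bc x < 0 →
      mx a ac x' + mx b bc x' < 0 → tight cD dD x = tight cD dD x' →
      amax a ac x = amax a ac x' →
      E0 (lift s e x (mx a ac x)) = E0 (lift s e x' (mx a ac x')) := by
    intro x x' hx hx' hn hn' ht hA
    apply ev_congr (hbot x hx) (hbot x' hx')
    apply t0_ext
    · rw [hlt, hlt, ht]
    · intro k
      rw [hak, hak, hsl, hsl, ← mem_amax_iff, ← mem_amax_iff, hA]
    · intro j
      rw [hbj, hbj, hsl, hsl]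
      have h1 := le_mx b bc x j
      have h2 := le_mx b bc x' j
      constructor <;> intro h <;> exfalso <;> linarith
  have ct : ∀ x x', x ∈ poly cD dD → x' ∈ poly cD dD → mx a ac x + mx b bc x < 0 →
      mx a ac x' + mx b bc x' < 0 → tight cD dD x = tight cD dD x' →
      amax b bc x = amax b bc x' →
      E0 (lift s e x (- mx b bc x)) = E0 (lift s e x' (- mx b bc x')) := by
    intro x x' hx hx' hn hn' ht hA
    apply ev_congr (htop x hx) (htop x' hx')
    apply t0_ext
    · rw [hlt, hlt, ht]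
    · intro k
      rw [hak, hak, hsl, hsl]
      have h1 := le_mx a ac x k
      have h2 := le_mx a ac x' k
      constructor <;> intro h <;> exfalso <;> linarith
    · intro j
      rw [hbj, hbj, hsl, hsl, neg_neg, neg_neg, ← mem_amax_iff, ← mem_amax_iff, hA]
  have cv : ∀ x x' r r', x ∈ poly cD dD → x' ∈ poly cD dD → mx a ac x < r → r < - mx b bc x →
      mx a ac x' < r' → r' < - mx b bc x' → tight cD dD x = tight cD dD x' →
      E0 (lift s e x r) = E0 (lift s e x' r') := by
    intro x x' r r' hx hx' h1 h2 h1' h2' ht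
    apply ev_congr (hP0 x r hx h1.le (by linarith)) (hP0 x' r' hx' h1'.le (by linarith))
    apply t0_ext
    · rw [hlt, hlt, ht]
    · intro k
      rw [hak, hak, hsl, hsl]
      have h3 := le_mx a ac x k
      have h4 := le_mx a ac x' k
      constructor <;> intro h <;> exfalso <;> linarith
    · intro j
      rw [hbj, hbj, hsl, hsl]
      have h3 := le_mx b bc x j
      have h4 := le_mx b bc x' j
      constructor <;> intro h <;> exfalso <;> linarith
  have cz : ∀ x x', x ∈ poly cD dD → x' ∈ poly cD dD → mx a ac x + mx b bc x = 0 →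
      mx a ac x' + mx b bc x' = 0 → tight cD dD x = tight cD dD x' →
      amax a ac x = amax a ac x' → amax b bc x = amax b bc x' →
      E0 (lift s e x (mx a ac x)) = E0 (lift s e x' (mx a ac x')) := by
    intro x x' hx hx' hn hn' ht hA hB
    apply ev_congr (hbot x hx) (hbot x' hx')
    have e1 : - mx a ac x = mx b bc x := by linarith
    have e2 : - mx a ac x' = mx b bc x' := by linarith
    apply t0_ext
    · rw [hlt, hlt, ht]
    · intro k
      rw [hak, hak, hsl, hsl, ← mem_amax_iff, ← mem_amax_iff, hA]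
    · intro j
      rw [hbj, hbj, hsl, hsl, e1, e2, ← mem_amax_iff, ← mem_amax_iff, hB]
  -- G is well defined on types
  have Gcongr : ∀ y y', y ∈ poly (c1 cD a b s) (d1 dD ac bc) →
      y' ∈ poly (c1 cD a b s) (d1 dD ac bc) →
      tight (c1 cD a b s) (d1 dD ac bc) y = tight (c1 cD a b s) (d1 dD ac bc) y' → G y = G y' := by
    intro y y' hy hy' ht
    rw [mem_P1] at hy hy'
    obtain ⟨hyD, hy0, hy1⟩ := hy
    obtain ⟨hyD', hy0', hy1'⟩ := hy'
    have q1 : tight cD dD y = tight cD dD y' := by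
      ext i
      have := Set.ext_iff.1 ht (Sum.inl i)
      exact this
    have q2 : s y = 0 ↔ s y' = 0 := by
      have := Set.ext_iff.1 ht (Sum.inr (Sum.inl ()))
      rwa [t1_u, t1_u] at this
    have q3 : ∀ k j, (a k y + ac k) + (b j y + bc j) + s y = 0 ↔
        (a k y' + ac k) + (b j y' + bc j) + s y' = 0 := by
      intro k j
      have := Set.ext_iff.1 ht (Sum.inr (Sum.inr (k, j)))
      rwa [t1_p, t1_p] at this
    have q3' : ∀ y y', mx a ac y' + mx b bc y' + s y' ≤ 0 →
        (∀ k j, (a k y + ac k) + (b j y + bc j) + s y = 0 →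
          (a k y' + ac k) + (b j y' + bc j) + s y' = 0) →
        mx a ac y + mx b bc y + s y = 0 → mx a ac y' + mx b bc y' + s y' = 0 ∧
        amax a ac y ⊆ amax a ac y' ∧ amax b bc y ⊆ amax b bc y' := by
      intro y y' hy1' q3 h
      have h1 : ∀ k ∈ amax a ac y, ∀ j ∈ amax b bc y,
          (a k y' + ac k) + (b j y' + bc j) + s y' = 0 := by
        intro k hk j hj
        apply q3 k j
        rw [mx_eq hk, mx_eq hj, h]
      obtain ⟨k0, hk0⟩ := amax_nonempty a ac y
      obtain ⟨j0, hj0⟩ := amax_nonempty b bc y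
      have h2 := h1 k0 hk0 j0 hj0
      have h3 := le_mx a ac y' k0
      have h4 := le_mx b bc y' j0
      have h5 : mx a ac y' + mx b bc y' + s y' = 0 := by linarith
      refine ⟨h5, fun k hk => ?_, fun j hj => ?_⟩
      · exact (mem_amax_of_sum (j := j0) (b := b) (bc := bc) (by
          have := h1 k hk j0 hj0
          linarith)).1
      · exact (mem_amax_of_sum (k := k0) (a := a) (ac := ac) (by
          have := h1 k0 hk0 j hj
          linarith)).2
    have q4 : mx a ac y + mx b bc y + s y = 0 → mx a ac y' + mx b bc y' + s y' = 0 ∧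
        amax a ac y = amax a ac y' ∧ amax b bc y = amax b bc y' := by
      intro h
      obtain ⟨g1, g2, g3⟩ := q3' y y' hy1' (fun k j => (q3 k j).1) h
      obtain ⟨g4, g5, g6⟩ := q3' y' y hy1 (fun k j => (q3 k j).2) g1
      exact ⟨g1, subset_antisymm g2 g5, subset_antisymm g3 g6⟩
    have q5 : mx a ac y' + mx b bc y' + s y' = 0 → mx a ac y + mx b bc y + s y = 0 :=
      fun h => (q3' y' y hy1 (fun k j => (q3 k j).2) h).1
    have q6 : mx a ac y + mx b bc y < 0 ↔ mx a ac y' + mx b bc y' < 0 := by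
      constructor
      · intro h
        by_contra h'
        have h1 := hle' y' hyD'
        have h2 : mx a ac y' + mx b bc y' = 0 := by linarith
        have h3 : s y' = 0 := by linarith
        have h4 := q5 (by linarith)
        have h5 := q2.2 h3
        linarith
      · intro h
        by_contra h'
        have h1 := hle' y hyD
        have h2 : mx a ac y + mx b bc y = 0 := by linarith
        have h3 : s y = 0 := by linarith
        have h4 := (q4 (by linarith)).1
        have h5 := q2.1 h3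
        linarith
    show (if mx a ac y + mx b bc y < 0 then _ else _) =
      (if mx a ac y' + mx b bc y' < 0 then _ else _)
    by_cases h1 : mx a ac y + mx b bc y < 0
    · have h1' := q6.1 h1
      rw [if_pos h1, if_pos h1']
      by_cases h2 : s y = 0
      · rw [if_pos h2, if_pos (q2.1 h2), q1]
      · rw [if_neg h2, if_neg (fun h => h2 (q2.2 h))]
        by_cases h3 : mx a ac y + mx b bc y + s y = 0
        · obtain ⟨h4, h5, h6⟩ := q4 h3
          rw [if_pos h3, if_pos h4, cb y y' hyD hyD' h1 h1' q1 h5, ct y y' hyD hyD' h1 h1' q1 h6]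
        · have h3' : ¬ (mx a ac y' + mx b bc y' + s y' = 0) := fun h => h3 (q5 h)
          rw [if_neg h3, if_neg h3']
          have h2' : s y' ≠ 0 := fun h => h2 (q2.2 h)
          have r1 := lt_of_le_of_ne hy0 (Ne.symm h2)
          have r2 := lt_of_le_of_ne hy0' (Ne.symm h2')
          have r3 := lt_of_le_of_ne hy1 h3
          have r4 := lt_of_le_of_ne hy1' h3'
          exact cv y y' _ _ hyD hyD' (by linarith) (by linarith) (by linarith) (by linarith) q1
    · have h1' : ¬ (mx a ac y' + mx b bc y' < 0) := fun h => h1 (q6.2 h)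
      rw [if_neg h1, if_neg h1']
      have r1 := hle' y hyD
      have r2 := hle' y' hyD'
      have r3 : mx a ac y + mx b bc y = 0 := by linarith
      have r4 : mx a ac y' + mx b bc y' = 0 := by linarith
      obtain ⟨h4, h5, h6⟩ := q4 (by linarith)
      exact cz y y' hyD hyD' r3 r4 q1 h5 h6
  -- representatives of the faces of `P1`
  have hrep : ∀ τ : ftypes (c1 cD a b s) (d1 dD ac bc) n, ∃ y ∈ poly (c1 cD a b s) (d1 dD ac bc),
      tight (c1 cD a b s) (d1 dD ac bc) y = τ := fun τ => τ.2.1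
  choose rep hrep1 hrep2 using hrep
  have key := card_le_of_linear (LinearMap.pi fun τ => G (rep τ)) ?_
  · exact key
  intro f hf
  have hG : ∀ y ∈ poly (c1 cD a b s) (d1 dD ac bc),
      Module.finrank ℝ (dirn (c1 cD a b s) (tight (c1 cD a b s) (d1 dD ac bc) y)) = n →
      G y f = 0 := by
    intro y hy hn
    have h1 := congrFun hf ⟨_, tight_mem_ftypes hy hn⟩
    rw [LinearMap.pi_apply] at h1
    rw [Gcongr y _ hy (hrep1 ⟨_, tight_mem_ftypes hy hn⟩) (hrep2 ⟨_, tight_mem_ftypes hy hn⟩).symm]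
    exact h1
  -- membership in Om
  have hOm : ∀ T w, w ∈ Om cD dD a ac b bc T →
      w ∈ poly cD dD ∧ mx a ac w + mx b bc w < 0 ∧ tight cD dD w = T :=
    fun T w h => mem_Om_iff.1 h
  have k1 : ∀ T, ∀ w ∈ Om cD dD a ac b bc T, ∀ w' ∈ Om cD dD a ac b bc T,
      amax a ac w = amax a ac w' →
      E0 (lift s e w (mx a ac w)) f = E0 (lift s e w' (mx a ac w')) f := by
    intro T w hw w' hw' hA
    obtain ⟨h1, h2, h3⟩ := hOm T w hw
    obtain ⟨h1', h2', h3'⟩ := hOm T w' hw'
    rw [cb w w' h1 h1' h2 h2' (h3.trans h3'.symm) hA]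
  have k2 : ∀ T, ∀ w ∈ Om cD dD a ac b bc T, ∀ w' ∈ Om cD dD a ac b bc T,
      amax b bc w = amax b bc w' →
      E0 (lift s e w (- mx b bc w)) f = E0 (lift s e w' (- mx b bc w')) f := by
    intro T w hw w' hw' hA
    obtain ⟨h1, h2, h3⟩ := hOm T w hw
    obtain ⟨h1', h2', h3'⟩ := hOm T w' hw'
    rw [ct w w' h1 h1' h2 h2' (h3.trans h3'.symm) hA]
  have k3 : ∀ T, ∀ w ∈ Om cD dD a ac b bc T,
      Module.finrank ℝ ↥(dirn cD T ⊓ eqd a (amax a ac w)) ≠ n + 1 →
      E0 (lift s e w (mx a ac w)) f = 0 := by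
    intro T w hw hne
    rw [hE0, ev_zero, LinearMap.zero_apply]
    intro h
    apply hne
    rw [← h, dim_bot hc ha hs ((hlOm T w _).2 hw) (by rw [hsl, hma]), hla]
  have k4 : ∀ T, ∀ w ∈ Om cD dD a ac b bc T,
      Module.finrank ℝ ↥(dirn cD T ⊓ eqd b (amax b bc w)) ≠ n + 1 →
      E0 (lift s e w (- mx b bc w)) f = 0 := by
    intro T w hw hne
    rw [hE0, ev_zero, LinearMap.zero_apply]
    intro h
    apply hne
    rw [← h, dim_top hc hb hs ((hlOm T w _).2 hw) (by rw [hsl, hmb]), hlb]
  have k5 : ∀ T, ∀ w ∈ Om cD dD a ac b bc T, Module.finrank ℝ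
      ↥(dirn cD T ⊓ (eqd a (amax a ac w) ⊓ eqd b (amax b bc w))) = n + 1 →
      E0 (lift s e w (mx a ac w)) f = E0 (lift s e w (- mx b bc w)) f := by
    intro T w hw hn
    obtain ⟨h1, h2, h3⟩ := hOm T w hw
    have hy := hP1 w (-(mx a ac w + mx b bc w)) h1 (by linarith) (by linarith)
    have hd := dim1_top hc ha hb hs ((hlOm T w (-(mx a ac w + mx b bc w))).2 hw)
      (by rw [hsl, hma, hmb]; ring)
    rw [hla, hlb, hn] at hd
    have h4 := hG _ hy (by omega)
    have h5 : G (lift s e w (-(mx a ac w + mx b bc w))) =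
        E0 (lift s e w (mx a ac w)) - E0 (lift s e w (- mx b bc w)) := by
      show (if mx a ac (lift s e w (-(mx a ac w + mx b bc w))) +
        mx b bc (lift s e w (-(mx a ac w + mx b bc w))) < 0 then _ else _) = _
      rw [if_pos (by rw [hma, hmb]; exact h2), if_neg (by rw [hsl]; intro h; linarith),
        if_pos (by rw [hma, hmb, hsl]; ring), hma, hmb, hll, hll]
    rw [h5, LinearMap.sub_apply, sub_eq_zero] at h4
    exact h4
  have k6 : ∀ T, (Om cD dD a ac b bc T).Nonempty → Module.finrank ℝ (dirn cD T) = n + 1 →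
      ∃ w' ∈ Om cD dD a ac b bc T, dirn cD T ≤ eqd a (amax a ac w') ∧
        E0 (lift s e w' (mx a ac w')) f = 0 := by
    intro T hne hn
    obtain ⟨g1, g2⟩ := hgen T hne
    refine ⟨gen T, g1, g2, ?_⟩
    obtain ⟨w, hw⟩ := hne
    obtain ⟨h1, h2, h3⟩ := hOm T w hw
    have hy := hP1 w 0 h1 le_rfl (by linarith)
    have hd := dim1_bot hc hs ((hlOm T w 0).2 hw) (hsl w 0)
    rw [hn] at hd
    have h4 := hG _ hy (by omega)
    have h5 : G (lift s e w 0) = E0 (lift s e (gen T) (mx a ac (gen T))) := by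
      show (if mx a ac (lift s e w 0) + mx b bc (lift s e w 0) < 0 then _ else _) = _
      rw [if_pos (by rw [hma, hmb]; exact h2), if_pos (hsl w 0), hlt, h3]
    rw [h5] at h4
    exact h4
  have hcore := core hT (n + 1) (fun w => E0 (lift s e w (mx a ac w)) f)
    (fun w => E0 (lift s e w (- mx b bc w)) f) k1 k2 k3 k4 k5 k6
  -- conclusion
  ext τ
  obtain ⟨x, hx, hxτ⟩ := τ.2.1
  have hxn : Module.finrank ℝ (dirn (c0 cD a b s) (tight (c0 cD a b s) (d0 dD ac bc) x)) = n := by
    rw [hxτ]
    exact τ.2.2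
  rw [← ev_apply hx f τ hxτ, ← hE0, Pi.zero_apply]
  have hx' := hx
  rw [mem_P0] at hx'
  obtain ⟨hxD, hx1, hx2⟩ := hx'
  by_cases hz : mx a ac x + mx b bc x < 0
  · have hO : x ∈ Om cD dD a ac b bc (tight cD dD x) := mem_Om_iff.2 ⟨hxD, hz, rfl⟩
    rcases eq_or_lt_of_le hx1 with h1 | h1
    · have := (hcore _ x hO).1
      rw [h1, hself] at this
      exact this
    · by_cases h2 : s x = - mx b bc x
      · have := (hcore _ x hO).2
        rw [← h2, hself] at this
        exact this
      · have h3 : s x < - mx b bc x := lt_of_le_of_ne (by linarith) h2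
        have hy := hP1 x (s x - mx a ac x) hxD (by linarith) (by linarith)
        have hd := dirn1_vert (s := s) ((hlOm _ x (s x - mx a ac x)).2 hO)
          (by rw [hsl]; linarith) (by rw [hsl, hma, hmb]; linarith)
        have hd0 := dirn_vert (s := s) hO h1 h3
        have h4 := hG _ hy (by rw [hd, ← hd0, hxn])
        have h5 : G (lift s e x (s x - mx a ac x)) = E0 x := by
          show (if mx a ac (lift s e x (s x - mx a ac x)) +
            mx b bc (lift s e x (s x - mx a ac x)) < 0 then _ else _) = _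
          rw [if_pos (by rw [hma, hmb]; exact hz), if_neg (by rw [hsl]; intro h; linarith),
            if_neg (by rw [hma, hmb, hsl]; intro h; linarith), hma, hsl, hll, sub_add_cancel, hself]
        rw [h5] at h4
        exact h4
  · have hz0 : mx a ac x + mx b bc x = 0 := by linarith [hle' x hxD]
    have hs0 : s x = mx a ac x := by linarith
    have hy := hP1 x 0 hxD le_rfl (by linarith)
    have hd0 := dim_Z0 (s := s) (dD := dD) hc ha hb hs hz0 hs0
    have hd1 := dim_Z1 (s := s) (dD := dD) (a := a) (b := b) (ac := ac) (bc := bc)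
      (w := lift s e x 0) hc ha hb hs (by rw [hma, hmb, hz0]) (hsl x 0)
    rw [hlt, hla, hlb, ← hd0, hxn] at hd1
    have h4 := hG _ hy (by omega)
    have h5 : G (lift s e x 0) = E0 x := by
      show (if mx a ac (lift s e x 0) + mx b bc (lift s e x 0) < 0 then _ else _) = _
      rw [if_neg (by rw [hma, hmb]; exact hz), hma, hll, ← hs0, hself]
    rw [h5] at h4
    exact h4

end count

end Pool.Agent.W304.HL
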