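import Mathlib

/-!
Faces of polyhedra given by finitely many inequalities, and their description by tight sets.
-/

namespace Pool.Agent.W304.HL

open Set Filter Topology

/-- The set of `i`-dimensional faces of a set `Q`: the nonempty exposed faces (so `Q` itself, or
the set of maximisers over `Q` of a linear functional) whose affine hull has dimension `i`. -/
def facesOfDim {V : Type*} [AddCommGroup V] [Module ℝ V] [TopologicalSpace V] (Q : Set V) (i : ℕ) :
    Set (Set V) :=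
  {F | F.Nonempty ∧ IsExposed ℝ Q F ∧ Module.finrank ℝ (vectorSpan ℝ F) = i}

section poly

variable {V : Type*} [NormedAddCommGroup V] [NormedSpace ℝ V] [FiniteDimensional ℝ V]
variable {I : Type*}

/-- The polyhedron given by the inequalities `c i x ≤ d i`. -/
def poly (c : I → V →ₗ[ℝ] ℝ) (d : I → ℝ) : Set V := {x | ∀ i, c i x ≤ d i}

/-- The set of inequalities tight at `x`. -/
def tight (c : I → V →ₗ[ℝ] ℝ) (d : I → ℝ) (x : V) : Set I := {i | c i x = d i}

/-- The directions annihilated by the functionals in `T`. -/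
def dirn (c : I → V →ₗ[ℝ] ℝ) (T : Set I) : Submodule ℝ V := ⨅ i ∈ T, LinearMap.ker (c i)

theorem mem_dirn {c : I → V →ₗ[ℝ] ℝ} {T : Set I} {v : V} :
    v ∈ dirn c T ↔ ∀ i ∈ T, c i v = 0 := by
  simp [dirn, Submodule.mem_iInf]

theorem cont_lin (f : V →ₗ[ℝ] ℝ) : Continuous f := f.continuous_of_finiteDimensional

theorem ev_strict [Finite I] {c : I → V →ₗ[ℝ] ℝ} {d : I → ℝ} {x : V} (hx : x ∈ poly c d) :
    ∀ᶠ y in 𝓝 x, ∀ i, i ∉ tight c d x → c i y < d i := by
  rw [eventually_all]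
  intro i
  by_cases hi : i ∈ tight c d x
  · exact Eventually.of_forall fun y h => absurd hi h
  · have h1 : c i x < d i := lt_of_le_of_ne (hx i) hi
    filter_upwards [(cont_lin (c i)).continuousAt.eventually (gt_mem_nhds h1)] with y hy _
    exact hy

theorem tendsto_line (x v : V) : Tendsto (fun t : ℝ => x + t • v) (𝓝 0) (𝓝 x) := by
  have : Continuous (fun t : ℝ => x + t • v) := by fun_prop
  simpa using this.tendsto 0

theorem ev_line [Finite I] {c : I → V →ₗ[ℝ] ℝ} {d : I → ℝ} {x v : V} (hx : x ∈ poly c d)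
    (hv : v ∈ dirn c (tight c d x)) :
    ∀ᶠ t in 𝓝 (0 : ℝ), x + t • v ∈ poly c d ∧ tight c d (x + t • v) = tight c d x := by
  filter_upwards [(tendsto_line x v).eventually (ev_strict hx)] with t ht
  have key : ∀ i ∈ tight c d x, c i (x + t • v) = d i := by
    intro i hi
    rw [map_add, map_smul, mem_dirn.1 hv i hi, smul_zero, add_zero]
    exact hi
  constructor
  · intro i
    by_cases hi : i ∈ tight c d x
    · exact (key i hi).le
    · exact (ht i hi).le
  · ext i
    constructor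
    · intro h
      by_contra hi
      exact (ht i hi).ne h
    · intro hi
      exact key i hi

theorem exists_line [Finite I] {c : I → V →ₗ[ℝ] ℝ} {d : I → ℝ} {x v : V} (hx : x ∈ poly c d)
    (hv : v ∈ dirn c (tight c d x)) :
    ∃ t : ℝ, 0 < t ∧ (x + t • v ∈ poly c d ∧ tight c d (x + t • v) = tight c d x) := by
  have h := (ev_line hx hv).filter_mono (nhdsWithin_le_nhds (s := Ioi (0:ℝ)))
  obtain ⟨t, ht1, ht2⟩ := (h.and self_mem_nhdsWithin).exists
  exact ⟨t, ht2, ht1⟩

/-- The face of the polyhedron belonging to a set of inequalities. -/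
def fc (c : I → V →ₗ[ℝ] ℝ) (d : I → ℝ) (T : Set I) : Set V := {y ∈ poly c d | T ⊆ tight c d y}

theorem mem_fc_self {c : I → V →ₗ[ℝ] ℝ} {d : I → ℝ} {x : V} (hx : x ∈ poly c d) :
    x ∈ fc c d (tight c d x) := ⟨hx, subset_rfl⟩

theorem vectorSpan_fc [Finite I] {c : I → V →ₗ[ℝ] ℝ} {d : I → ℝ} {x : V} (hx : x ∈ poly c d) :
    vectorSpan ℝ (fc c d (tight c d x)) = dirn c (tight c d x) := by
  apply le_antisymm
  · rw [vectorSpan_def, Submodule.span_le]
    rintro _ ⟨y, hy, z, hz, rfl⟩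
    rw [SetLike.mem_coe, mem_dirn]
    intro i hi
    have h1 : c i y = d i := hy.2 hi
    have h2 : c i z = d i := hz.2 hi
    simp [vsub_eq_sub, h1, h2]
  · intro v hv
    obtain ⟨t, ht, h1, h2⟩ := exists_line hx hv
    have h3 : x + t • v ∈ fc c d (tight c d x) := ⟨h1, h2.symm.subset⟩
    have h4 := vsub_mem_vectorSpan ℝ h3 (mem_fc_self hx)
    simp only [vsub_eq_sub, add_sub_cancel_left] at h4
    have h5 := Submodule.smul_mem _ t⁻¹ h4
    rwa [smul_smul, inv_mul_cancel₀ ht.ne', one_smul] at h5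

theorem isExposed_fc [Finite I] {c : I → V →ₗ[ℝ] ℝ} {d : I → ℝ} {x : V} (hx : x ∈ poly c d) :
    IsExposed ℝ (poly c d) (fc c d (tight c d x)) := by
  classical
  have := Fintype.ofFinite I
  intro _
  refine ⟨LinearMap.toContinuousLinearMap (∑ i ∈ Finset.univ.filter (· ∈ tight c d x), c i), ?_⟩
  have hle : ∀ y ∈ poly c d, ∑ i ∈ Finset.univ.filter (· ∈ tight c d x), c i y ≤
      ∑ i ∈ Finset.univ.filter (· ∈ tight c d x), d i := fun y hy =>
    Finset.sum_le_sum fun i _ => hy i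
  have hxe : ∑ i ∈ Finset.univ.filter (· ∈ tight c d x), c i x =
      ∑ i ∈ Finset.univ.filter (· ∈ tight c d x), d i :=
    Finset.sum_congr rfl fun i hi => (Finset.mem_filter.1 hi).2
  ext y
  simp only [fc, mem_ofPred_eq, LinearMap.coe_toContinuousLinearMap', LinearMap.coe_sum,
    Finset.sum_apply]
  constructor
  · rintro ⟨hy, hT⟩
    refine ⟨hy, fun z hz => (hle z hz).trans ?_⟩
    apply le_of_eq
    apply Finset.sum_congr rfl
    intro i hi
    exact (hT (Finset.mem_filter.1 hi).2).symm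
  · rintro ⟨hy, hm⟩
    refine ⟨hy, fun i hi => ?_⟩
    have h1 := hm x hx
    rw [hxe] at h1
    have h2 := (Finset.sum_eq_sum_iff_of_le (fun i (_ : i ∈ Finset.univ.filter
      (· ∈ tight c d x)) => hy i)).1 (le_antisymm (hle y hy) h1)
    exact h2 i (by simpa using hi)

theorem exists_tight_min [Finite I] {c : I → V →ₗ[ℝ] ℝ} {d : I → ℝ} {F : Set V}
    (hF : F.Nonempty) (hsub : F ⊆ poly c d) (hconv : Convex ℝ F) :
    ∃ x ∈ F, ∀ y ∈ F, tight c d x ⊆ tight c d y := by
  classical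
  have hex : ∃ n : ℕ, ∃ x ∈ F, (tight c d x).ncard = n := by
    obtain ⟨x, hx⟩ := hF
    exact ⟨_, x, hx, rfl⟩
  obtain ⟨x, hx, hxn⟩ := Nat.find_spec hex
  refine ⟨x, hx, fun y hy => ?_⟩
  have hz : (1/2 : ℝ) • x + (1/2 : ℝ) • y ∈ F :=
    hconv hx hy (by norm_num) (by norm_num) (by norm_num)
  have hzt : ∀ i ∈ tight c d ((1/2 : ℝ) • x + (1/2 : ℝ) • y), i ∈ tight c d x ∧ i ∈ tight c d y := by
    intro i hi
    have h1 : c i ((1/2 : ℝ) • x + (1/2 : ℝ) • y) = d i := hi
    rw [map_add, map_smul, map_smul, smul_eq_mul, smul_eq_mul] at h1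
    have h2 := hsub hx i
    have h3 := hsub hy i
    constructor
    · show c i x = d i
      linarith
    · show c i y = d i
      linarith
  have hcard : (tight c d x).ncard ≤ (tight c d ((1/2 : ℝ) • x + (1/2 : ℝ) • y)).ncard := by
    rw [hxn]
    exact Nat.find_min' hex ⟨_, hz, rfl⟩
  have heq : tight c d ((1/2 : ℝ) • x + (1/2 : ℝ) • y) = tight c d x :=
    Set.eq_of_subset_of_ncard_le (fun i hi => (hzt i hi).1) hcard (Set.toFinite _)
  intro i hi
  exact (hzt i (heq.symm ▸ hi)).2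

/-- Every nonempty exposed face is the face of the tight set of one of its points. -/
theorem exposed_eq_fc [Finite I] {c : I → V →ₗ[ℝ] ℝ} {d : I → ℝ} {F : Set V}
    (hF : F.Nonempty) (hE : IsExposed ℝ (poly c d) F) (hconv : Convex ℝ (poly c d)) :
    ∃ x ∈ poly c d, F = fc c d (tight c d x) := by
  obtain ⟨l, hl⟩ := hE hF
  have hsub : F ⊆ poly c d := by rw [hl]; exact fun y hy => hy.1
  obtain ⟨x, hx, hmin⟩ := exists_tight_min hF hsub (hE.convex hconv)
  refine ⟨x, hsub hx, subset_antisymm (fun y hy => ⟨hsub hy, hmin y hy⟩) ?_⟩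
  rintro y ⟨hy, hT⟩
  have hv : x - y ∈ dirn c (tight c d x) := by
    rw [mem_dirn]
    intro i hi
    have h1 : c i x = d i := hi
    have h2 : c i y = d i := hT hi
    rw [map_sub, h1, h2, sub_self]
  obtain ⟨t, ht, h1, -⟩ := exists_line (hsub hx) hv
  rw [hl] at hx ⊢
  have h2 := hx.2 _ h1
  rw [map_add, map_smul, map_sub, smul_eq_mul] at h2
  have h3 : l x ≤ l y := by
    by_contra h
    push Not at h
    nlinarith
  exact ⟨hy, fun z hz => (hx.2 z hz).trans h3⟩

theorem convex_poly (c : I → V →ₗ[ℝ] ℝ) (d : I → ℝ) : Convex ℝ (poly c d) := by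
  intro x hx y hy a b ha hb hab i
  rw [map_add, map_smul, map_smul, smul_eq_mul, smul_eq_mul]
  have h1 := hx i
  have h2 := hy i
  have : d i = a * d i + b * d i := by rw [← add_mul, hab, one_mul]
  rw [this]
  gcongr

/-- The tight sets of points of the polyhedron lying in the relative interior of an
`i`-dimensional face. -/
def ftypes (c : I → V →ₗ[ℝ] ℝ) (d : I → ℝ) (i : ℕ) : Set (Set I) :=
  {T | (∃ x ∈ poly c d, tight c d x = T) ∧ Module.finrank ℝ (dirn c T) = i}

theorem facesOfDim_eq_image [Finite I] (c : I → V →ₗ[ℝ] ℝ) (d : I → ℝ) (i : ℕ) :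
    facesOfDim (poly c d) i = fc c d '' ftypes c d i := by
  ext F
  constructor
  · rintro ⟨hF, hE, hd⟩
    obtain ⟨x, hx, rfl⟩ := exposed_eq_fc hF hE (convex_poly c d)
    rw [vectorSpan_fc hx] at hd
    exact ⟨_, ⟨⟨x, hx, rfl⟩, hd⟩, rfl⟩
  · rintro ⟨T, ⟨⟨x, hx, rfl⟩, hd⟩, rfl⟩
    exact ⟨⟨x, mem_fc_self hx⟩, isExposed_fc hx, by rw [vectorSpan_fc hx]; exact hd⟩

theorem injOn_fc [Finite I] (c : I → V →ₗ[ℝ] ℝ) (d : I → ℝ) (i : ℕ) :
    InjOn (fc c d) (ftypes c d i) := by
  rintro T ⟨⟨x, hx, rfl⟩, -⟩ T' ⟨⟨y, hy, rfl⟩, -⟩ h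
  have h1 : x ∈ fc c d (tight c d y) := h ▸ mem_fc_self hx
  have h2 : y ∈ fc c d (tight c d x) := h ▸ mem_fc_self hy
  exact subset_antisymm h2.2 h1.2

theorem ncard_faces [Finite I] (c : I → V →ₗ[ℝ] ℝ) (d : I → ℝ) (i : ℕ) :
    (facesOfDim (poly c d) i).ncard = (ftypes c d i).ncard := by
  rw [facesOfDim_eq_image, (injOn_fc c d i).ncard_image]

theorem finite_faces [Finite I] (c : I → V →ₗ[ℝ] ℝ) (d : I → ℝ) (i : ℕ) :
    (facesOfDim (poly c d) i).Finite := by
  rw [facesOfDim_eq_image]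
  exact (Set.toFinite _).image _

end poly

end Pool.Agent.W304.HL
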