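import Pool.Agent.W304.HL.Core

/-!
The comparison of the face numbers of `{M ≤ s ≤ U}` and `{0 ≤ s ≤ U - M}`.
-/

set_option linter.unusedSectionVars false

namespace Pool.Agent.W304.HL

open Set Filter Topology

section shear

variable {V : Type*} [NormedAddCommGroup V] [NormedSpace ℝ V] [FiniteDimensional ℝ V]
variable {δ κ υ : Type*} [Finite δ] [Finite κ] [Nonempty κ] [Finite υ] [Nonempty υ]

theorem finrank_inf_ker {E : Submodule ℝ V} {e : V} (he : e ∈ E) {φ : V →ₗ[ℝ] ℝ} (hφ : φ e = 1) :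
    Module.finrank ℝ ↥(E ⊓ LinearMap.ker φ) + 1 = Module.finrank ℝ E := by
  have h1 : (φ.domRestrict E) ≠ 0 := by
    intro h
    have h2 : (φ.domRestrict E) ⟨e, he⟩ = 0 := by rw [h]; rfl
    rw [LinearMap.domRestrict_apply] at h2
    simp [hφ] at h2
  have h2 := Module.Dual.finrank_ker_add_one_of_ne_zero (f := (φ.domRestrict E)) h1
  rw [← h2]
  congr 1
  rw [← Submodule.finrank_map_subtype_eq E (LinearMap.ker (φ.domRestrict E))]
  have h3 : E ⊓ LinearMap.ker φ = Submodule.map E.subtype (LinearMap.ker (φ.domRestrict E)) := by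
    ext v
    simp only [Submodule.mem_inf, LinearMap.mem_ker, Submodule.mem_map, Submodule.subtype_apply,
      LinearMap.domRestrict_apply, Subtype.exists, exists_and_left, exists_prop, exists_eq_right_right]
    tauto
  rw [h3]

/-- the maximum of a family of affine functions -/
noncomputable def mx (a : κ → V →ₗ[ℝ] ℝ) (ac : κ → ℝ) (x : V) : ℝ :=
  a (amax_nonempty a ac x).some x + ac (amax_nonempty a ac x).some

theorem mx_eq {a : κ → V →ₗ[ℝ] ℝ} {ac : κ → ℝ} {x : V} {k : κ} (hk : k ∈ amax a ac x) :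
    a k x + ac k = mx a ac x := amax_eq hk (amax_nonempty a ac x).some_mem

theorem le_mx (a : κ → V →ₗ[ℝ] ℝ) (ac : κ → ℝ) (x : V) (k : κ) : a k x + ac k ≤ mx a ac x :=
  (amax_nonempty a ac x).some_mem k

theorem mem_amax_iff {a : κ → V →ₗ[ℝ] ℝ} {ac : κ → ℝ} {x : V} {k : κ} :
    k ∈ amax a ac x ↔ a k x + ac k = mx a ac x := by
  refine ⟨mx_eq, fun h k' => ?_⟩
  rw [h]
  exact le_mx a ac x k'

theorem mx_le_iff {a : κ → V →ₗ[ℝ] ℝ} {ac : κ → ℝ} {x : V} {r : ℝ} :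
    mx a ac x ≤ r ↔ ∀ k, a k x + ac k ≤ r :=
  ⟨fun h k => (le_mx a ac x k).trans h, fun h => h _⟩

theorem amax_shift {a : κ → V →ₗ[ℝ] ℝ} {ac : κ → ℝ} {e : V} (ha : ∀ k, a k e = 0) (x : V) (t : ℝ) :
    amax a ac (x + t • e) = amax a ac x := by
  simp [amax, ha]

theorem mx_shift {a : κ → V →ₗ[ℝ] ℝ} {ac : κ → ℝ} {e : V} (ha : ∀ k, a k e = 0) (x : V) (t : ℝ) :
    mx a ac (x + t • e) = mx a ac x := by
  obtain ⟨k, hk⟩ := amax_nonempty a ac x
  rw [← mx_eq hk, ← mx_eq (x := x + t • e) (k := k) (by rw [amax_shift ha]; exact hk)]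
  simp [ha]

variable {cD : δ → V →ₗ[ℝ] ℝ} {dD : δ → ℝ} {a : κ → V →ₗ[ℝ] ℝ} {ac : κ → ℝ}
    {b : υ → V →ₗ[ℝ] ℝ} {bc : υ → ℝ}

theorem mem_Om_iff {T : Set δ} {x : V} : x ∈ Om cD dD a ac b bc T ↔
    x ∈ poly cD dD ∧ mx a ac x + mx b bc x < 0 ∧ tight cD dD x = T := by
  constructor
  · rintro ⟨h1, h2, h3⟩
    exact ⟨h1, h2 _ _, h3⟩
  · rintro ⟨h1, h2, h3⟩
    exact ⟨h1, fun k j => by linarith [le_mx a ac x k, le_mx b bc x j], h3⟩

/-- the inequalities of `{M ≤ s ≤ U}` -/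
def c0 (cD : δ → V →ₗ[ℝ] ℝ) (a : κ → V →ₗ[ℝ] ℝ) (b : υ → V →ₗ[ℝ] ℝ) (s : V →ₗ[ℝ] ℝ) :
    δ ⊕ (κ ⊕ υ) → V →ₗ[ℝ] ℝ := Sum.elim cD (Sum.elim (fun k => a k - s) (fun j => b j + s))

def d0 (dD : δ → ℝ) (ac : κ → ℝ) (bc : υ → ℝ) : δ ⊕ (κ ⊕ υ) → ℝ :=
  Sum.elim dD (Sum.elim (fun k => - ac k) (fun j => - bc j))

/-- the inequalities of `{0 ≤ s ≤ U - M}` -/
def c1 (cD : δ → V →ₗ[ℝ] ℝ) (a : κ → V →ₗ[ℝ] ℝ) (b : υ → V →ₗ[ℝ] ℝ) (s : V →ₗ[ℝ] ℝ) :
    δ ⊕ (Unit ⊕ (κ × υ)) → V →ₗ[ℝ] ℝ :=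
  Sum.elim cD (Sum.elim (fun _ => - s) (fun p => a p.1 + b p.2 + s))

def d1 (dD : δ → ℝ) (ac : κ → ℝ) (bc : υ → ℝ) : δ ⊕ (Unit ⊕ (κ × υ)) → ℝ :=
  Sum.elim dD (Sum.elim (fun _ => 0) (fun p => - ac p.1 - bc p.2))

variable {s : V →ₗ[ℝ] ℝ} {e : V}

theorem mem_P0 {x : V} : x ∈ poly (c0 cD a b s) (d0 dD ac bc) ↔
    x ∈ poly cD dD ∧ mx a ac x ≤ s x ∧ mx b bc x ≤ - s x := by
  rw [mx_le_iff, mx_le_iff]
  constructor
  · intro h
    refine ⟨fun i => h (Sum.inl i), fun k => ?_, fun j => ?_⟩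
    · have := h (Sum.inr (Sum.inl k))
      simp only [c0, d0, Sum.elim_inr, Sum.elim_inl, LinearMap.sub_apply] at this
      linarith
    · have := h (Sum.inr (Sum.inr j))
      simp only [c0, d0, Sum.elim_inr, LinearMap.add_apply] at this
      linarith
  · rintro ⟨h1, h2, h3⟩ (i | k | j)
    · exact h1 i
    · have := h2 k
      simp only [c0, d0, Sum.elim_inr, Sum.elim_inl, LinearMap.sub_apply]
      linarith
    · have := h3 j
      simp only [c0, d0, Sum.elim_inr, LinearMap.add_apply]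
      linarith

theorem mem_P1 {x : V} : x ∈ poly (c1 cD a b s) (d1 dD ac bc) ↔
    x ∈ poly cD dD ∧ 0 ≤ s x ∧ mx a ac x + mx b bc x + s x ≤ 0 := by
  constructor
  · intro h
    refine ⟨fun i => h (Sum.inl i), ?_, ?_⟩
    · have := h (Sum.inr (Sum.inl ()))
      simp only [c1, d1, Sum.elim_inr, Sum.elim_inl, LinearMap.neg_apply] at this
      linarith
    · have := h (Sum.inr (Sum.inr ((amax_nonempty a ac x).some, (amax_nonempty b bc x).some)))
      simp only [c1, d1, Sum.elim_inr, LinearMap.add_apply] at this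
      simp only [mx]
      linarith
  · rintro ⟨h1, h2, h3⟩ (i | u | ⟨k, j⟩)
    · exact h1 i
    · simp only [c1, d1, Sum.elim_inr, Sum.elim_inl, LinearMap.neg_apply]
      linarith
    · have h4 := le_mx a ac x k
      have h5 := le_mx b bc x j
      simp only [c1, d1, Sum.elim_inr, LinearMap.add_apply]
      linarith

theorem t0_inl {x : V} {i : δ} : Sum.inl i ∈ tight (c0 cD a b s) (d0 dD ac bc) x ↔
    i ∈ tight cD dD x := Iff.rfl

theorem t0_k {x : V} {k : κ} : Sum.inr (Sum.inl k) ∈ tight (c0 cD a b s) (d0 dD ac bc) x ↔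
    a k x + ac k = s x := by
  show (a k - s) x = - ac k ↔ _
  rw [LinearMap.sub_apply]
  constructor <;> intro h <;> linarith

theorem t0_j {x : V} {j : υ} : Sum.inr (Sum.inr j) ∈ tight (c0 cD a b s) (d0 dD ac bc) x ↔
    b j x + bc j = - s x := by
  show (b j + s) x = - bc j ↔ _
  rw [LinearMap.add_apply]
  constructor <;> intro h <;> linarith

theorem t1_inl {x : V} {i : δ} : Sum.inl i ∈ tight (c1 cD a b s) (d1 dD ac bc) x ↔
    i ∈ tight cD dD x := Iff.rfl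

theorem t1_u {x : V} {u : Unit} : Sum.inr (Sum.inl u) ∈ tight (c1 cD a b s) (d1 dD ac bc) x ↔
    s x = 0 := by
  show (- s) x = 0 ↔ _
  rw [LinearMap.neg_apply]
  constructor <;> intro h <;> linarith

theorem t1_p {x : V} {k : κ} {j : υ} :
    Sum.inr (Sum.inr (k, j)) ∈ tight (c1 cD a b s) (d1 dD ac bc) x ↔
    (a k x + ac k) + (b j x + bc j) + s x = 0 := by
  show (a k + b j + s) x = - ac k - bc j ↔ _
  rw [LinearMap.add_apply, LinearMap.add_apply]
  constructor <;> intro h <;> linarith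

/-- equality of tight sets for `P0` -/
theorem t0_ext {x y : V} (h1 : tight cD dD x = tight cD dD y)
    (h2 : ∀ k, a k x + ac k = s x ↔ a k y + ac k = s y)
    (h3 : ∀ j, b j x + bc j = - s x ↔ b j y + bc j = - s y) :
    tight (c0 cD a b s) (d0 dD ac bc) x = tight (c0 cD a b s) (d0 dD ac bc) y := by
  ext (i | k | j)
  · rw [t0_inl, t0_inl, h1]
  · rw [t0_k, t0_k, h2]
  · rw [t0_j, t0_j, h3]

theorem mem_dirn0 {x v : V} : v ∈ dirn (c0 cD a b s) (tight (c0 cD a b s) (d0 dD ac bc) x) ↔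
    v ∈ dirn cD (tight cD dD x) ∧ (∀ k, a k x + ac k = s x → a k v = s v) ∧
      (∀ j, b j x + bc j = - s x → b j v = - s v) := by
  rw [mem_dirn, mem_dirn]
  constructor
  · intro h
    refine ⟨fun i hi => h (Sum.inl i) hi, fun k hk => ?_, fun j hj => ?_⟩
    · have := h (Sum.inr (Sum.inl k)) (t0_k.2 hk)
      simp only [c0, Sum.elim_inr, Sum.elim_inl, LinearMap.sub_apply] at this
      linarith
    · have := h (Sum.inr (Sum.inr j)) (t0_j.2 hj)
      simp only [c0, Sum.elim_inr, LinearMap.add_apply] at this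
      linarith
  · rintro ⟨h1, h2, h3⟩ (i | k | j) hi
    · exact h1 i hi
    · have := h2 k (t0_k.1 hi)
      simp only [c0, Sum.elim_inr, Sum.elim_inl, LinearMap.sub_apply]
      linarith
    · have := h3 j (t0_j.1 hi)
      simp only [c0, Sum.elim_inr, LinearMap.add_apply]
      linarith

theorem mem_dirn1 {x v : V} : v ∈ dirn (c1 cD a b s) (tight (c1 cD a b s) (d1 dD ac bc) x) ↔
    v ∈ dirn cD (tight cD dD x) ∧ (s x = 0 → s v = 0) ∧
      (∀ k j, (a k x + ac k) + (b j x + bc j) + s x = 0 → a k v + b j v + s v = 0) := by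
  rw [mem_dirn, mem_dirn]
  constructor
  · intro h
    refine ⟨fun i hi => h (Sum.inl i) hi, fun hs => ?_, fun k j hkj => ?_⟩
    · have := h (Sum.inr (Sum.inl ())) (t1_u.2 hs)
      simp only [c1, Sum.elim_inr, Sum.elim_inl, LinearMap.neg_apply] at this
      linarith
    · have := h (Sum.inr (Sum.inr (k, j))) (t1_p.2 hkj)
      simp only [c1, Sum.elim_inr, LinearMap.add_apply] at this
      linarith
  · rintro ⟨h1, h2, h3⟩ (i | u | ⟨k, j⟩) hi
    · exact h1 i hi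
    · have := h2 (t1_u.1 hi)
      simp only [c1, Sum.elim_inr, Sum.elim_inl, LinearMap.neg_apply]
      linarith
    · have := h3 k j (t1_p.1 hi)
      simp only [c1, Sum.elim_inr, LinearMap.add_apply]
      linarith

theorem mem_amax_of_sum {x : V} {k : κ} {j : υ}
    (h : (a k x + ac k) + (b j x + bc j) = mx a ac x + mx b bc x) :
    k ∈ amax a ac x ∧ j ∈ amax b bc x := by
  rw [mem_amax_iff, mem_amax_iff]
  have h1 := le_mx a ac x k
  have h2 := le_mx b bc x j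
  constructor <;> linarith

section withe

variable (hc : ∀ i, cD i e = 0) (ha : ∀ k, a k e = 0) (hb : ∀ j, b j e = 0) (hs : s e = 1)

include hc in
theorem e_mem_dirn (T : Set δ) : e ∈ dirn cD T := mem_dirn.2 fun i _ => hc i

include ha in
theorem e_mem_eqd (K : Set κ) : e ∈ eqd a K :=
  mem_eqd.2 fun k _ k' _ => by rw [ha, ha]

include hc in
theorem poly_shift {x : V} (t : ℝ) : x + t • e ∈ poly cD dD ↔ x ∈ poly cD dD := by
  simp [poly, hc]

include hc in
theorem tight_shift {x : V} (t : ℝ) : tight cD dD (x + t • e) = tight cD dD x := by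
  simp [tight, hc]

include hc ha hb in
theorem Om_shift {T : Set δ} {x : V} (t : ℝ) : x + t • e ∈ Om cD dD a ac b bc T ↔
    x ∈ Om cD dD a ac b bc T := by
  rw [mem_Om_iff, mem_Om_iff, poly_shift hc, tight_shift hc, mx_shift ha, mx_shift hb]

include hc ha hs in
theorem dim_bot {T : Set δ} {w : V} (hw : w ∈ Om cD dD a ac b bc T) (h : s w = mx a ac w) :
    Module.finrank ℝ (dirn (c0 cD a b s) (tight (c0 cD a b s) (d0 dD ac bc) w)) + 1 =
      Module.finrank ℝ ↥(dirn cD T ⊓ eqd a (amax a ac w)) := by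
  obtain ⟨k0, hk0⟩ := amax_nonempty a ac w
  rw [mem_Om_iff] at hw
  obtain ⟨h1, h2, rfl⟩ := hw
  have hE : e ∈ dirn cD (tight cD dD w) ⊓ eqd a (amax a ac w) :=
    ⟨e_mem_dirn hc _, e_mem_eqd ha _⟩
  have hφ : (s - a k0) e = 1 := by rw [LinearMap.sub_apply, hs, ha, sub_zero]
  rw [← finrank_inf_ker hE hφ]
  refine congrArg (fun E : Submodule ℝ V => Module.finrank ℝ E + 1) ?_
  ext v
  rw [mem_dirn0, Submodule.mem_inf, Submodule.mem_inf, LinearMap.mem_ker, mem_eqd,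
    LinearMap.sub_apply]
  constructor
  · rintro ⟨g1, g2, g3⟩
    have g4 : ∀ k ∈ amax a ac w, a k v = s v := fun k hk => g2 k ((mx_eq hk).trans h.symm)
    refine ⟨⟨g1, fun k hk k' hk' => (g4 k hk).trans (g4 k' hk').symm⟩, ?_⟩
    rw [g4 k0 hk0, sub_self]
  · rintro ⟨⟨g1, g2⟩, g3⟩
    refine ⟨g1, fun k hk => ?_, fun j hj => ?_⟩
    · rw [h, ← mem_amax_iff] at hk
      rw [g2 k hk k0 hk0]
      linarith
    · have := le_mx b bc w j
      exfalso
      linarith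

include hc hb hs in
theorem dim_top {T : Set δ} {w : V} (hw : w ∈ Om cD dD a ac b bc T) (h : s w = - mx b bc w) :
    Module.finrank ℝ (dirn (c0 cD a b s) (tight (c0 cD a b s) (d0 dD ac bc) w)) + 1 =
      Module.finrank ℝ ↥(dirn cD T ⊓ eqd b (amax b bc w)) := by
  obtain ⟨j0, hj0⟩ := amax_nonempty b bc w
  rw [mem_Om_iff] at hw
  obtain ⟨h1, h2, rfl⟩ := hw
  have hE : e ∈ dirn cD (tight cD dD w) ⊓ eqd b (amax b bc w) :=
    ⟨e_mem_dirn hc _, e_mem_eqd hb _⟩
  have hφ : (s + b j0) e = 1 := by rw [LinearMap.add_apply, hs, hb, add_zero]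
  rw [← finrank_inf_ker hE hφ]
  refine congrArg (fun E : Submodule ℝ V => Module.finrank ℝ E + 1) ?_
  ext v
  rw [mem_dirn0, Submodule.mem_inf, Submodule.mem_inf, LinearMap.mem_ker, mem_eqd,
    LinearMap.add_apply]
  constructor
  · rintro ⟨g1, g2, g3⟩
    have g4 : ∀ j ∈ amax b bc w, b j v = - s v := fun j hj => g3 j (by rw [mx_eq hj, h, neg_neg])
    refine ⟨⟨g1, fun k hk k' hk' => (g4 k hk).trans (g4 k' hk').symm⟩, ?_⟩
    rw [g4 j0 hj0, add_neg_cancel]
  · rintro ⟨⟨g1, g2⟩, g3⟩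
    refine ⟨g1, fun k hk => ?_, fun j hj => ?_⟩
    · have := le_mx a ac w k
      exfalso
      linarith
    · have hj' : j ∈ amax b bc w := by
        rw [mem_amax_iff]
        linarith
      rw [g2 j hj' j0 hj0]
      linarith

theorem dirn_vert {T : Set δ} {w : V} (hw : w ∈ Om cD dD a ac b bc T) (h : mx a ac w < s w)
    (h' : s w < - mx b bc w) :
    dirn (c0 cD a b s) (tight (c0 cD a b s) (d0 dD ac bc) w) = dirn cD T := by
  rw [mem_Om_iff] at hw
  obtain ⟨h1, h2, rfl⟩ := hw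
  ext v
  rw [mem_dirn0]
  constructor
  · exact fun h => h.1
  · refine fun hv => ⟨hv, fun k hk => ?_, fun j hj => ?_⟩
    · have := le_mx a ac w k
      exfalso
      linarith
    · have := le_mx b bc w j
      exfalso
      linarith

include hc hs in
theorem dim1_bot {T : Set δ} {w : V} (hw : w ∈ Om cD dD a ac b bc T) (h : s w = 0) :
    Module.finrank ℝ (dirn (c1 cD a b s) (tight (c1 cD a b s) (d1 dD ac bc) w)) + 1 =
      Module.finrank ℝ (dirn cD T) := by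
  rw [mem_Om_iff] at hw
  obtain ⟨h1, h2, rfl⟩ := hw
  rw [← finrank_inf_ker (e_mem_dirn hc (tight cD dD w)) hs]
  refine congrArg (fun E : Submodule ℝ V => Module.finrank ℝ E + 1) ?_
  ext v
  rw [mem_dirn1, Submodule.mem_inf, LinearMap.mem_ker]
  constructor
  · rintro ⟨g1, g2, g3⟩
    exact ⟨g1, g2 h⟩
  · rintro ⟨g1, g2⟩
    refine ⟨g1, fun _ => g2, fun k j hkj => ?_⟩
    have h3 := le_mx a ac w k
    have h4 := le_mx b bc w j
    exfalso
    linarith

include hc ha hb hs in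
theorem dim1_top {T : Set δ} {w : V} (hw : w ∈ Om cD dD a ac b bc T)
    (h : mx a ac w + mx b bc w + s w = 0) :
    Module.finrank ℝ (dirn (c1 cD a b s) (tight (c1 cD a b s) (d1 dD ac bc) w)) + 1 =
      Module.finrank ℝ ↥(dirn cD T ⊓ (eqd a (amax a ac w) ⊓ eqd b (amax b bc w))) := by
  obtain ⟨k0, hk0⟩ := amax_nonempty a ac w
  obtain ⟨j0, hj0⟩ := amax_nonempty b bc w
  rw [mem_Om_iff] at hw
  obtain ⟨h1, h2, rfl⟩ := hw
  have hE : e ∈ dirn cD (tight cD dD w) ⊓ (eqd a (amax a ac w) ⊓ eqd b (amax b bc w)) :=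
    ⟨e_mem_dirn hc _, e_mem_eqd ha _, e_mem_eqd hb _⟩
  have hφ : (a k0 + b j0 + s) e = 1 := by
    rw [LinearMap.add_apply, LinearMap.add_apply, hs, hb, ha, add_zero, zero_add]
  rw [← finrank_inf_ker hE hφ]
  refine congrArg (fun E : Submodule ℝ V => Module.finrank ℝ E + 1) ?_
  ext v
  rw [mem_dirn1, Submodule.mem_inf, Submodule.mem_inf, Submodule.mem_inf, LinearMap.mem_ker,
    mem_eqd, mem_eqd, LinearMap.add_apply, LinearMap.add_apply]
  constructor
  · rintro ⟨g1, g2, g3⟩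
    have g4 : ∀ k ∈ amax a ac w, ∀ j ∈ amax b bc w, a k v + b j v + s v = 0 :=
      fun k hk j hj => g3 k j (by rw [mx_eq hk, mx_eq hj, h])
    refine ⟨⟨g1, fun k hk k' hk' => ?_, fun j hj j' hj' => ?_⟩, g4 k0 hk0 j0 hj0⟩
    · have h3 := g4 k hk j0 hj0
      have h4 := g4 k' hk' j0 hj0
      linarith
    · have h3 := g4 k0 hk0 j hj
      have h4 := g4 k0 hk0 j' hj'
      linarith
  · rintro ⟨⟨g1, g2, g3⟩, g4⟩
    refine ⟨g1, fun h => ?_, fun k j hkj => ?_⟩
    · exfalso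
      linarith
    · obtain ⟨hk, hj⟩ := mem_amax_of_sum (a := a) (ac := ac) (b := b) (bc := bc) (x := w)
        (k := k) (j := j) (by linarith)
      rw [g2 k hk k0 hk0, g3 j hj j0 hj0]
      exact g4

theorem dirn1_vert {T : Set δ} {w : V} (hw : w ∈ Om cD dD a ac b bc T) (h : 0 < s w)
    (h' : mx a ac w + mx b bc w + s w < 0) :
    dirn (c1 cD a b s) (tight (c1 cD a b s) (d1 dD ac bc) w) = dirn cD T := by
  rw [mem_Om_iff] at hw
  obtain ⟨h1, h2, rfl⟩ := hw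
  ext v
  rw [mem_dirn1]
  constructor
  · exact fun h => h.1
  · refine fun hv => ⟨hv, fun h => ?_, fun k j hkj => ?_⟩
    · exfalso
      linarith
    · have h3 := le_mx a ac w k
      have h4 := le_mx b bc w j
      exfalso
      linarith

/-- directions on which all `a k + b j` vanish -/
def zdir (a : κ → V →ₗ[ℝ] ℝ) (b : υ → V →ₗ[ℝ] ℝ) (K : Set κ) (J : Set υ) : Submodule ℝ V :=
  ⨅ k ∈ K, ⨅ j ∈ J, LinearMap.ker (a k + b j)

theorem mem_zdir {K : Set κ} {J : Set υ} {v : V} :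
    v ∈ zdir a b K J ↔ ∀ k ∈ K, ∀ j ∈ J, a k v + b j v = 0 := by
  simp [zdir, Submodule.mem_iInf]

include hc ha hb hs in
theorem dim_Z0 {w : V} (hz : mx a ac w + mx b bc w = 0) (h : s w = mx a ac w) :
    Module.finrank ℝ (dirn (c0 cD a b s) (tight (c0 cD a b s) (d0 dD ac bc) w)) + 1 =
      Module.finrank ℝ ↥(dirn cD (tight cD dD w) ⊓ zdir a b (amax a ac w) (amax b bc w)) := by
  obtain ⟨k0, hk0⟩ := amax_nonempty a ac w
  obtain ⟨j0, hj0⟩ := amax_nonempty b bc w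
  have hE : e ∈ dirn cD (tight cD dD w) ⊓ zdir a b (amax a ac w) (amax b bc w) :=
    ⟨e_mem_dirn hc _, mem_zdir.2 fun k _ j _ => by rw [ha, hb, add_zero]⟩
  have hφ : (s - a k0) e = 1 := by rw [LinearMap.sub_apply, hs, ha, sub_zero]
  rw [← finrank_inf_ker hE hφ]
  refine congrArg (fun E : Submodule ℝ V => Module.finrank ℝ E + 1) ?_
  ext v
  rw [mem_dirn0, Submodule.mem_inf, Submodule.mem_inf, LinearMap.mem_ker, mem_zdir,
    LinearMap.sub_apply]
  constructor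
  · rintro ⟨g1, g2, g3⟩
    have g4 : ∀ k ∈ amax a ac w, a k v = s v := fun k hk => g2 k ((mx_eq hk).trans h.symm)
    have g5 : ∀ j ∈ amax b bc w, b j v = - s v := fun j hj => g3 j (by rw [mx_eq hj]; linarith)
    refine ⟨⟨g1, fun k hk j hj => ?_⟩, ?_⟩
    · rw [g4 k hk, g5 j hj, add_neg_cancel]
    · rw [g4 k0 hk0, sub_self]
  · rintro ⟨⟨g1, g2⟩, g3⟩
    refine ⟨g1, fun k hk => ?_, fun j hj => ?_⟩
    · rw [h, ← mem_amax_iff] at hk
      have h3 := g2 k hk j0 hj0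
      have h4 := g2 k0 hk0 j0 hj0
      linarith
    · have hj' : j ∈ amax b bc w := by
        rw [mem_amax_iff]
        linarith
      have h3 := g2 k0 hk0 j hj'
      linarith

include hc ha hb hs in
theorem dim_Z1 {w : V} (hz : mx a ac w + mx b bc w = 0) (h : s w = 0) :
    Module.finrank ℝ (dirn (c1 cD a b s) (tight (c1 cD a b s) (d1 dD ac bc) w)) + 1 =
      Module.finrank ℝ ↥(dirn cD (tight cD dD w) ⊓ zdir a b (amax a ac w) (amax b bc w)) := by
  have hE : e ∈ dirn cD (tight cD dD w) ⊓ zdir a b (amax a ac w) (amax b bc w) :=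
    ⟨e_mem_dirn hc _, mem_zdir.2 fun k _ j _ => by rw [ha, hb, add_zero]⟩
  rw [← finrank_inf_ker hE hs]
  refine congrArg (fun E : Submodule ℝ V => Module.finrank ℝ E + 1) ?_
  ext v
  rw [mem_dirn1, Submodule.mem_inf, Submodule.mem_inf, LinearMap.mem_ker, mem_zdir]
  constructor
  · rintro ⟨g1, g2, g3⟩
    have g4 := g2 h
    refine ⟨⟨g1, fun k hk j hj => ?_⟩, g4⟩
    have h3 := g3 k j (by rw [mx_eq hk, mx_eq hj, h, hz, add_zero])
    linarith
  · rintro ⟨⟨g1, g2⟩, g3⟩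
    refine ⟨g1, fun _ => g3, fun k j hkj => ?_⟩
    obtain ⟨hk, hj⟩ := mem_amax_of_sum (a := a) (ac := ac) (b := b) (bc := bc) (x := w)
        (k := k) (j := j) (by linarith)
    have h3 := g2 k hk j hj
    linarith

end withe

end shear

end Pool.Agent.W304.HL
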