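import Pool.Agent.W304.HL.CO

/-!
Moving one element from the order part to the chain part.
-/

set_option linter.unusedSectionVars false

namespace Pool.Agent.W304.HL

open Set Filter Topology

section step

variable {P : Type*} [PartialOrder P] {A : Set P}

/-- the chain-order polytope with order part `N` -/
def ip (lam : A → ℝ) (N : Set {p : P // p ∉ A}) : Set ({p : P // p ∉ A} → ℝ) :=
  {x | (∀ b s a, Valid N Nᶜ b s a → mu lam x b + ∑ c ∈ s, x c ≤ mu lam x a) ∧ ∀ c ∈ Nᶜ, 0 ≤ x c}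

theorem nodes_mono {N N' : Set {p : P // p ∉ A}} (h : N ⊆ N') : nodes N ⊆ nodes N' :=
  union_subset_union_right _ (image_mono h)

theorem coe_mem_nodes {N : Set {p : P // p ∉ A}} {q : {p : P // p ∉ A}} :
    (q : P) ∈ nodes N ↔ q ∈ N := by
  constructor
  · rintro (h | ⟨q', h, h'⟩)
    · exact absurd h q.2
    · exact Subtype.ext h' ▸ h
  · exact fun h => Or.inr ⟨q, h, rfl⟩

theorem mem_nodes_diff {N : Set {p : P // p ∉ A}} {p : {p : P // p ∉ A}} {r : P}
    (h : r ∈ nodes N) (hr : r ≠ p) : r ∈ nodes (N \ {p}) := by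
  rcases h with h | ⟨q, h, rfl⟩
  · exact Or.inl h
  · exact Or.inr ⟨q, ⟨h, fun h' => hr (congrArg Subtype.val h')⟩, rfl⟩

theorem ip_empty_of {lam : A → ℝ} {N : Set {p : P // p ∉ A}} {p : {p : P // p ∉ A}} (hp : p ∈ N)
    {b a : A} (hb : (b : P) < p) (ha : (p : P) < a) (h : lam a < lam b) : ip lam N = ∅ := by
  rw [eq_empty_iff_forall_notMem]
  rintro x ⟨h1, -⟩
  have h2 := h1 b ∅ p ⟨Or.inl b.2, coe_mem_nodes.2 hp, by simp, by simp, hb, by simp,
    fun _ h => p.2 h.2⟩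
  have h3 := h1 p ∅ a ⟨coe_mem_nodes.2 hp, Or.inl a.2, by simp, by simp, ha, by simp,
    fun _ h => p.2 h.1⟩
  rw [mu_mem b.2, mu_coe, Finset.sum_empty, add_zero] at h2
  rw [mu_mem a.2, mu_coe, Finset.sum_empty, add_zero] at h3
  exact absurd (h2.trans h3) (not_le.2 h)

theorem facesOfDim_empty {V : Type*} [AddCommGroup V] [Module ℝ V] [TopologicalSpace V] (n : ℕ) :
    facesOfDim (∅ : Set V) n = ∅ := by
  rw [eq_empty_iff_forall_notMem]
  rintro F ⟨⟨x, hx⟩, hE, -⟩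
  obtain ⟨l, hl⟩ := hE ⟨x, hx⟩
  rw [hl] at hx
  exact hx.1

variable [Finite P]

theorem exists_mark_lt (hmin : ∀ q : P, IsMin q → q ∈ A) (p : P) : p ∉ A → ∃ b ∈ A, b < p := by
  have : WellFoundedLT P := Finite.to_wellFoundedLT
  induction p using WellFoundedLT.induction with
  | ind p ih =>
    intro hp
    have h1 : ¬ IsMin p := fun h => hp (hmin p h)
    rw [not_isMin_iff] at h1
    obtain ⟨q, hq⟩ := h1
    by_cases hqA : q ∈ A
    · exact ⟨q, hqA, hq⟩
    · obtain ⟨b, hb, hbq⟩ := ih q hq hqA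
      exact ⟨b, hb, hbq.trans hq⟩

theorem exists_lt_mark (hmax : ∀ q : P, IsMax q → q ∈ A) (p : P) : p ∉ A → ∃ a ∈ A, p < a := by
  have : WellFoundedGT P := Finite.to_wellFoundedGT
  induction p using WellFoundedGT.induction with
  | ind p ih =>
    intro hp
    have h1 : ¬ IsMax p := fun h => hp (hmax p h)
    rw [not_isMax_iff] at h1
    obtain ⟨q, hq⟩ := h1
    by_cases hqA : q ∈ A
    · exact ⟨q, hqA, hq⟩
    · obtain ⟨b, hb, hbq⟩ := ih q hq hqA
      exact ⟨b, hb, hq.trans hbq⟩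

variable [Fintype {p : P // p ∉ A}]

theorem ip_eq_P0 (lam : A → ℝ) {N : Set {p : P // p ∉ A}} {p : {p : P // p ∉ A}}
    (hup : ∀ u ∈ N, ∀ v, u < v → v ∈ N) (hp : p ∈ N)
    [Nonempty (Ka (N \ {p}) Nᶜ p)] [Nonempty (Up (N \ {p}) p)] :
    poly (c0 (cDf (N \ {p}) Nᶜ) (af (N \ {p}) Nᶜ p) (bf (N \ {p}) p) (LinearMap.proj p))
      (d0 (dDf lam (N \ {p}) Nᶜ) (acf lam (N \ {p}) Nᶜ p) (bcf lam (N \ {p}) p)) =
      ip lam N := by
  ext x
  rw [mem_P0, mem_polyD, mx_le_iff, mx_le_iff]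
  constructor
  · rintro ⟨⟨h1, h2⟩, h3, h4⟩
    refine ⟨fun b s a hv => ?_, h2⟩
    by_cases ha : a = p
    · subst ha
      have h5 := h3 ⟨(b, s), mem_nodes_diff hv.hb hv.lt.ne, hv.hs, hv.chain, hv.lt, hv.bet⟩
      rw [af_val] at h5
      rw [mu_coe]
      exact h5
    · by_cases hb : b = p
      · subst hb
        have hs : s = ∅ := by
          rw [Finset.eq_empty_iff_forall_notMem]
          intro c hc
          exact hv.hs hc (hup p hp c (hv.bet c hc).1)
        subst hs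
        have h5 := h4 ⟨a, mem_nodes_diff hv.ha ha, hv.lt⟩
        rw [bf_val] at h5
        rw [Finset.sum_empty, add_zero, mu_coe]
        have h6 : (LinearMap.proj p : ({p : P // p ∉ A} → ℝ) →ₗ[ℝ] ℝ) x = x p := rfl
        rw [h6] at h5
        linarith
      · exact h1 b s a ⟨mem_nodes_diff hv.hb hb, mem_nodes_diff hv.ha ha, hv.hs, hv.chain, hv.lt,
          hv.bet, hv.ne⟩
  · rintro ⟨h1, h2⟩
    refine ⟨⟨fun b s a hv => ?_, h2⟩, fun k => ?_, fun j => ?_⟩
    · exact h1 b s a ⟨nodes_mono sdiff_subset hv.hb, nodes_mono sdiff_subset hv.ha, hv.hs, hv.chain,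
        hv.lt, hv.bet, hv.ne⟩
    · rw [af_val]
      have h3 := h1 k.1.1 k.1.2 p ⟨nodes_mono sdiff_subset k.2.1, coe_mem_nodes.2 hp, k.2.2.1,
        k.2.2.2.1, k.2.2.2.2.1, k.2.2.2.2.2, fun _ h => p.2 h.2⟩
      rw [mu_coe] at h3
      exact h3
    · rw [bf_val]
      have h3 := h1 p ∅ j.1 ⟨coe_mem_nodes.2 hp, nodes_mono sdiff_subset j.2.1, by simp, by simp,
        j.2.2, by simp, fun _ h => p.2 h.1⟩
      rw [mu_coe, Finset.sum_empty, add_zero] at h3
      have h6 : (LinearMap.proj p : ({p : P // p ∉ A} → ℝ) →ₗ[ℝ] ℝ) x = x p := rfl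
      rw [h6]
      linarith

theorem mx_add_le_iff {V κ υ : Type*} [NormedAddCommGroup V] [NormedSpace ℝ V]
    [FiniteDimensional ℝ V] [Finite κ] [Nonempty κ] [Finite υ] [Nonempty υ] {a : κ → V →ₗ[ℝ] ℝ}
    {ac : κ → ℝ} {b : υ → V →ₗ[ℝ] ℝ} {bc : υ → ℝ} {x : V} {r : ℝ} :
    mx a ac x + mx b bc x + r ≤ 0 ↔ ∀ k j, (a k x + ac k) + (b j x + bc j) + r ≤ 0 :=
  ⟨fun h k j => by linarith [le_mx a ac x k, le_mx b bc x j], fun h => h _ _⟩

theorem ip_eq_P1 (lam : A → ℝ) {N : Set {p : P // p ∉ A}} {p : {p : P // p ∉ A}}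
    (hup : ∀ u ∈ N, ∀ v, u < v → v ∈ N) (hp : p ∈ N)
    [Nonempty (Ka (N \ {p}) Nᶜ p)] [Nonempty (Up (N \ {p}) p)] :
    poly (c1 (cDf (N \ {p}) Nᶜ) (af (N \ {p}) Nᶜ p) (bf (N \ {p}) p) (LinearMap.proj p))
      (d1 (dDf lam (N \ {p}) Nᶜ) (acf lam (N \ {p}) Nᶜ p) (bcf lam (N \ {p}) p)) =
      ip lam (N \ {p}) := by
  classical
  have hS : Nᶜ ⊆ (N \ {p})ᶜ := compl_subset_compl.2 sdiff_subset
  have hS' : ∀ c ∈ (N \ {p})ᶜ, c ≠ p → c ∈ Nᶜ := fun c hc hne hcN => hc ⟨hcN, hne⟩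
  have hpS : p ∈ (N \ {p})ᶜ := fun h => h.2 rfl
  ext x
  have h6 : (LinearMap.proj p : ({p : P // p ∉ A} → ℝ) →ₗ[ℝ] ℝ) x = x p := rfl
  rw [mem_P1, mem_polyD, mx_add_le_iff, h6]
  constructor
  · rintro ⟨⟨h1, h2⟩, h3, h4⟩
    refine ⟨fun b s a hv => ?_, fun c hc => ?_⟩
    · by_cases hps : p ∈ s
      · have k1 : ((s.erase p : Finset {p : P // p ∉ A}) : Set {p : P // p ∉ A}) ⊆ Nᶜ := by
          intro c hc
          rw [Finset.mem_coe, Finset.mem_erase] at hc
          exact hS' c (hv.hs hc.2) hc.1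
        have k2 : IsChain (· ≤ ·) ((s.erase p : Finset {p : P // p ∉ A}) : Set {p : P // p ∉ A}) :=
          hv.chain.mono (by exact_mod_cast Finset.erase_subset p s)
        have k3 : ∀ c ∈ s.erase p, b < (c : P) ∧ c < p := by
          intro c hc
          rw [Finset.mem_erase] at hc
          refine ⟨(hv.bet c hc.2).1, ?_⟩
          rcases hv.chain hc.2 hps hc.1 with h5 | h5
          · exact lt_of_le_of_ne h5 hc.1
          · exact absurd (hup p hp c (lt_of_le_of_ne h5 hc.1.symm)) (hS' c (hv.hs hc.2) hc.1)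
        have h5 := h4 ⟨(b, s.erase p), hv.hb, k1, k2, (hv.bet p hps).1, k3⟩
          ⟨a, hv.ha, (hv.bet p hps).2⟩
        rw [af_val, bf_val] at h5
        rw [← Finset.add_sum_erase s _ hps]
        linarith
      · refine h1 b s a ⟨hv.hb, hv.ha, fun c hc => hS' c (hv.hs hc) ?_, hv.chain, hv.lt, hv.bet,
          hv.ne⟩
        rintro rfl
        exact hps hc
    · by_cases hcp : c = p
      · rw [hcp]
        exact h3
      · exact h2 c (hS' c hc hcp)
  · rintro ⟨h1, h2⟩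
    refine ⟨⟨fun b s a hv => ?_, fun c hc => h2 c (hS hc)⟩, h2 p hpS, fun k j => ?_⟩
    · exact h1 b s a ⟨hv.hb, hv.ha, hv.hs.trans hS, hv.chain, hv.lt, hv.bet, hv.ne⟩
    · have hpk : p ∉ k.1.2 := fun h => k.2.2.1 h hp
      have h5 := h1 k.1.1 (insert p k.1.2) j.1 ⟨k.2.1, j.2.1, ?_, ?_, k.2.2.2.2.1.trans j.2.2,
        ?_, ?_⟩
      · rw [af_val, bf_val]
        rw [Finset.sum_insert hpk] at h5
        linarith
      · intro c hc
        rw [Finset.mem_coe, Finset.mem_insert] at hc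
        rcases hc with rfl | hc
        · exact hpS
        · exact hS (k.2.2.1 hc)
      · rw [Finset.coe_insert]
        exact k.2.2.2.1.insert fun c hc _ => Or.inr (k.2.2.2.2.2 c hc).2.le
      · intro c hc
        rw [Finset.mem_insert] at hc
        rcases hc with rfl | hc
        · exact ⟨k.2.2.2.2.1, j.2.2⟩
        · exact ⟨(k.2.2.2.2.2 c hc).1,
            lt_trans (Subtype.coe_lt_coe.2 (k.2.2.2.2.2 c hc).2) j.2.2⟩
      · intro h
        exfalso
        exact Finset.insert_ne_empty _ _ h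

/-- Moving one element from the order part to the chain part does not decrease face numbers. -/
theorem step (lam : A → ℝ) (hmin : ∀ q : P, IsMin q → q ∈ A) (hmax : ∀ q : P, IsMax q → q ∈ A)
    {N : Set {p : P // p ∉ A}} {p : {p : P // p ∉ A}}
    (hup : ∀ u ∈ N, ∀ v, u < v → v ∈ N) (hp : p ∈ N) (n : ℕ) :
    (facesOfDim (ip lam N) n).encard ≤ (facesOfDim (ip lam (N \ {p})) n).encard := by
  classical
  by_cases hcomp : ∀ b a : A, (b : P) < p → (p : P) < a → lam b ≤ lam a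
  · obtain ⟨b0, hb0, hb0p⟩ := exists_mark_lt hmin p p.2
    obtain ⟨a0, ha0, ha0p⟩ := exists_lt_mark hmax p p.2
    have i1 : Nonempty (Ka (N \ {p}) Nᶜ p) :=
      ⟨⟨(b0, ∅), Or.inl hb0, by simp, by simp, hb0p, by simp⟩⟩
    have i2 : Nonempty (Up (N \ {p}) p) := ⟨⟨a0, Or.inl ha0, ha0p⟩⟩
    have hpS : p ∉ Nᶜ := fun h => h hp
    have hdis : Disjoint (N \ {p}) Nᶜ := by
      rw [Set.disjoint_left]
      exact fun c hc hc' => hc' hc.1
    have hnu : ∀ r ∈ nodes (N \ {p}), nuL A r (Pi.single p (1:ℝ)) = 0 := by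
      rintro r (hr | ⟨q, hq, rfl⟩)
      · exact nuL_mem hr
      · rw [nuL_coe]
        exact Pi.single_eq_of_ne hq.2 1
    have hsum : ∀ s : Finset {p : P // p ∉ A}, (s : Set {p : P // p ∉ A}) ⊆ Nᶜ →
        ∑ c ∈ s, (Pi.single p (1:ℝ) : {p : P // p ∉ A} → ℝ) c = 0 := by
      intro s hs
      apply Finset.sum_eq_zero
      intro c hc
      apply Pi.single_eq_of_ne
      rintro rfl
      exact hpS (hs hc)
    have key := ncard_ftypes_le (cD := cDf (N \ {p}) Nᶜ) (dD := dDf lam (N \ {p}) Nᶜ)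
      (a := af (N \ {p}) Nᶜ p) (ac := acf lam (N \ {p}) Nᶜ p) (b := bf (N \ {p}) p)
      (bc := bcf lam (N \ {p}) p) (s := LinearMap.proj p) (e := Pi.single p 1)
      ?_ ?_ ?_ ?_ ?_ (trans_co lam _ _ p hdis) n
    · rw [← ncard_faces, ← ncard_faces, ip_eq_P0 lam hup hp, ip_eq_P1 lam hup hp] at key
      have f0 : (facesOfDim (ip lam N) n).Finite := by
        rw [← ip_eq_P0 lam hup hp]
        exact finite_faces _ _ n
      have f1 : (facesOfDim (ip lam (N \ {p})) n).Finite := by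
        rw [← ip_eq_P1 lam hup hp]
        exact finite_faces _ _ n
      rw [← f0.cast_ncard_eq, ← f1.cast_ncard_eq]
      exact_mod_cast key
    · rintro (⟨⟨b, s, a⟩, h⟩ | ⟨c, hc⟩)
      · rw [cDf_inl, hnu b h.hb, hnu a h.ha, hsum s h.hs]
        simp
      · rw [cDf_inr, neg_eq_zero]
        apply Pi.single_eq_of_ne
        rintro rfl
        exact hpS hc
    · intro k
      rw [af_apply, hnu _ k.2.1, hsum _ k.2.2.1, add_zero]
    · intro j
      show - nuL A j.1 (Pi.single p (1:ℝ)) = 0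
      rw [hnu _ j.2.1, neg_zero]
    · show (Pi.single p (1:ℝ) : {p : P // p ∉ A} → ℝ) p = 1
      exact Pi.single_eq_same p 1
    · intro x hx k j
      rw [mem_polyD] at hx
      rw [af_val, bf_val]
      have hlt : k.1.1 < j.1 := k.2.2.2.2.1.trans j.2.2
      by_cases hc : k.1.2 = ∅ ∧ k.1.1 ∈ A ∧ j.1 ∈ A
      · obtain ⟨h1, h2, h3⟩ := hc
        have h4 := hcomp ⟨_, h2⟩ ⟨_, h3⟩ k.2.2.2.2.1 j.2.2
        rw [h1, mu_mem h2, mu_mem h3, Finset.sum_empty]
        linarith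
      · have h1 := hx.1 k.1.1 k.1.2 j.1 ⟨k.2.1, j.2.1, k.2.2.1, k.2.2.2.1, hlt,
          fun c hc => ⟨(k.2.2.2.2.2 c hc).1,
            lt_trans (Subtype.coe_lt_coe.2 (k.2.2.2.2.2 c hc).2) j.2.2⟩,
          fun h h' => hc ⟨h, h'⟩⟩
        linarith
  · push Not at hcomp
    obtain ⟨b, a, hb, ha, hlt⟩ := hcomp
    rw [ip_empty_of hp hb ha hlt, facesOfDim_empty, encard_empty]
    exact zero_le

omit [Fintype {p : P // p ∉ A}] in
/-- The face numbers of the chain-order polytopes do not increase when the order part grows. -/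
theorem mono_ip (lam : A → ℝ) (hmin : ∀ q : P, IsMin q → q ∈ A) (hmax : ∀ q : P, IsMax q → q ∈ A)
    (n : ℕ) {M : Set {p : P // p ∉ A}} (hM : ∀ u ∈ M, ∀ v, u < v → v ∈ M) :
    ∀ (m : ℕ) (N : Set {p : P // p ∉ A}), (N \ M).ncard = m → M ⊆ N →
      (∀ u ∈ N, ∀ v, u < v → v ∈ N) →
    (facesOfDim (ip lam N) n).encard ≤ (facesOfDim (ip lam M) n).encard := by
  classical
  have := Fintype.ofFinite {p : P // p ∉ A}
  intro m
  induction m with
  | zero =>
    intro N hm hMN hN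
    have h1 : N \ M = ∅ := (Set.ncard_eq_zero (Set.toFinite _)).1 hm
    have h2 : N = M := subset_antisymm (sdiff_eq_empty.1 h1) hMN
    rw [h2]
  | succ m ih =>
    intro N hm hMN hN
    have hne : (N \ M).Nonempty := by
      rw [Set.nonempty_iff_ne_empty]
      intro h
      rw [h, Set.ncard_empty] at hm
      omega
    obtain ⟨p, hp⟩ := (Set.toFinite (N \ M)).exists_minimal hne
    have hpN : p ∈ N := hp.1.1
    have hpM : p ∉ M := hp.1.2
    refine (step lam hmin hmax hN hpN n).trans (ih (N \ {p}) ?_ ?_ ?_)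
    · have h1 : (N \ {p}) \ M = (N \ M) \ {p} := by
        ext c
        simp only [Set.mem_sdiff, mem_singleton_iff]
        tauto
      rw [h1, Set.ncard_sdiff_singleton_of_mem hp.1, hm]
      rfl
    · intro c hc
      refine ⟨hMN hc, ?_⟩
      rintro rfl
      exact hpM hc
    · rintro u ⟨hu, hup⟩ v huv
      refine ⟨hN u hu v huv, ?_⟩
      rintro rfl
      have h1 : u ∈ N \ M := ⟨hu, fun h => hpM (hM u h _ huv)⟩
      exact absurd (hp.2 h1 huv.le) (not_le_of_gt huv)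

end step

end Pool.Agent.W304.HL
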